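import Pool.Agent.H4.SkewDet.Closure

namespace Pool.Agent.H4.SkewDet

open Polynomial Matrix Filter Topology

/-- A complex coefficient array (coefficient of `x ^ a * y ^ b`), normalised and of the right
parity, whose polynomial is stable. -/
structure Arr (n : ℕ) (c : ℕ → ℕ → ℂ) : Prop where
  one : c n 0 = 1
  par : ∀ a m, a + m ≤ n → m % 2 = 1 → c a (n - a - m) = 0

variable {n : ℕ} {c : ℕ → ℕ → ℂ}

/-- coefficient of `x ^ a` in the homogenised polynomial at `(y, z)` -/
noncomputable def cf (n : ℕ) (c : ℕ → ℕ → ℂ) (y z : ℂ) (a : ℕ) : ℂ :=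
  ∑ m ∈ Finset.range (n - a + 1), c a (n - a - m) * y ^ (n - a - m) * z ^ m

/-- the homogenised polynomial as a polynomial in `x` -/
noncomputable def Pp (n : ℕ) (c : ℕ → ℕ → ℂ) (y z : ℂ) : ℂ[X] :=
  X ^ n + ∑ a : Fin n, C (cf n c y z a) * X ^ (a : ℕ)

lemma cf_n (h : Arr n c) (y z : ℂ) : cf n c y z n = 1 := by
  simp [cf, h.one]

lemma Pp_eval (h : Arr n c) (x y z : ℂ) :
    (Pp n c y z).eval x = ∑ a ∈ Finset.range (n + 1), cf n c y z a * x ^ a := by
  rw [Finset.sum_range_succ, cf_n h, one_mul, Finset.sum_range (fun a => cf n c y z a * x ^ a),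
    Pp, add_comm]
  simp [eval_finsetSum]

lemma Pp_monic (n : ℕ) (c : ℕ → ℕ → ℂ) (y z : ℂ) :
    (Pp n c y z).Monic ∧ (Pp n c y z).natDegree = n := by
  have hdeg : (∑ i : Fin n, C (cf n c y z i) * X ^ (i : ℕ) : ℂ[X]).degree < n := by
    refine (degree_sum_le _ _).trans_lt ?_
    rw [Finset.sup_lt_iff (by exact WithBot.bot_lt_coe n)]
    intro i _
    refine (degree_C_mul_X_pow_le _ _).trans_lt ?_
    exact_mod_cast i.2
  refine ⟨monic_X_pow_add hdeg, ?_⟩
  have hd1 : (Pp n c y z).degree = (n : WithBot ℕ) := by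
    rw [Pp, degree_add_eq_left_of_degree_lt (by rwa [degree_X_pow]), degree_X_pow]
  exact natDegree_eq_of_degree_eq_some hd1

lemma Pp_coeff (h : Arr n c) (y z : ℂ) (a : ℕ) :
    (Pp n c y z).coeff a = if a ≤ n then cf n c y z a else 0 := by
  rw [Pp, coeff_add, coeff_X_pow, finsetSum_coeff]
  simp only [coeff_C_mul, coeff_X_pow]
  rcases lt_trichotomy a n with ha | ha | ha
  · rw [if_neg ha.ne, if_pos ha.le, zero_add, Finset.sum_eq_single (⟨a, ha⟩ : Fin n)]
    · simp
    · intro b _ hb
      rw [if_neg, mul_zero]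
      intro h'
      exact hb (Fin.ext h'.symm)
    · intro h'
      exact absurd (Finset.mem_univ _) h'
  · subst ha
    rw [if_pos rfl, if_pos le_rfl, cf_n h, Finset.sum_eq_zero, add_zero]
    intro i _
    have := i.2
    rw [if_neg (by omega), mul_zero]
  · rw [if_neg (by omega), if_neg (by omega), zero_add]
    refine Finset.sum_eq_zero fun i _ => ?_
    have := i.2
    rw [if_neg (by omega), mul_zero]

lemma cf_smul (l y z : ℂ) (a : ℕ) : cf n c (l * y) (l * z) a = l ^ (n - a) * cf n c y z a := by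
  rw [cf, cf, Finset.mul_sum]
  refine Finset.sum_congr rfl fun m hm => ?_
  have hm' : m ≤ n - a := by
    have := Finset.mem_range.mp hm
    omega
  have h1 : l ^ (n - a) = l ^ (n - a - m) * l ^ m := by
    rw [← pow_add]
    congr 1
    omega
  rw [h1, mul_pow, mul_pow]
  ring

lemma Pp_smul (h : Arr n c) (l x y z : ℂ) :
    (Pp n c (l * y) (l * z)).eval (l * x) = l ^ n * (Pp n c y z).eval x := by
  rw [Pp_eval h, Pp_eval h, Finset.mul_sum]
  refine Finset.sum_congr rfl fun a ha => ?_
  have ha' : a ≤ n := by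
    have := Finset.mem_range.mp ha
    omega
  have h1 : l ^ n = l ^ (n - a) * l ^ a := by
    rw [← pow_add]
    congr 1
    omega
  rw [cf_smul, h1, mul_pow]
  ring

lemma cf_neg (h : Arr n c) (y z : ℂ) {a : ℕ} (ha : a ≤ n) : cf n c y (-z) a = cf n c y z a := by
  refine Finset.sum_congr rfl fun m hm => ?_
  have hm' : m ≤ n - a := by
    have := Finset.mem_range.mp hm
    omega
  rcases Nat.even_or_odd m with he | ho
  · rw [he.neg_pow]
  · rw [h.par a m (by omega) (Nat.odd_iff.mp ho)]
    ring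

lemma Pp_neg (h : Arr n c) (x y z : ℂ) :
    (Pp n c y (-z)).eval x = (Pp n c y z).eval x := by
  rw [Pp_eval h, Pp_eval h]
  refine Finset.sum_congr rfl fun a ha => ?_
  rw [cf_neg h y z (by have := Finset.mem_range.mp ha; omega)]

/-- lower bound for monic polynomials without roots in the upper half-plane -/
lemma lower_bound {f : ℂ[X]} (hf : f.Monic) (h : ∀ r, f.eval r = 0 → r.im ≤ 0) {x : ℂ}
    (hx : 0 < x.im) : x.im ^ f.natDegree ≤ ‖f.eval x‖ := by
  have hs := IsAlgClosed.splits f
  rw [hs.natDegree_eq_card_roots, hs.eval_eq_prod_roots_of_monic hf]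
  have key : ∀ s : Multiset ℂ, (∀ r ∈ s, r.im ≤ 0) →
      x.im ^ (Multiset.card s) ≤ ‖(s.map fun a => x - a).prod‖ := by
    intro s
    induction s using Multiset.induction_on with
    | empty => intro _; simp
    | cons a s ih =>
      intro hs
      rw [Multiset.map_cons, Multiset.prod_cons, norm_mul, Multiset.card_cons, pow_succ']
      have h1 : x.im ≤ ‖x - a‖ := by
        have h2 := Complex.abs_im_le_norm (x - a)
        have h3 := hs a (Multiset.mem_cons_self a s)
        have h4 : x.im - a.im ≤ |(x - a).im| := by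
          rw [Complex.sub_im]
          exact le_abs_self _
        linarith
      exact mul_le_mul h1 (ih fun r hr => hs r (Multiset.mem_cons_of_mem hr)) (by positivity)
        (norm_nonneg _)
  exact key f.roots fun r hr => h r ((mem_roots hf.ne_zero).mp hr)

lemma continuous_cf (a : ℕ) : Continuous fun v : ℂ × ℂ => cf n c v.1 v.2 a := by
  unfold cf
  fun_prop

lemma continuous_Pp (h : Arr n c) (x : ℂ) :
    Continuous fun v : ℂ × ℂ => (Pp n c v.1 v.2).eval x := by
  simp only [Pp_eval h]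
  refine continuous_finsetSum _ fun a _ => ?_
  exact (continuous_cf a).mul continuous_const

/-- the stability hypothesis -/
def Stab (n : ℕ) (c : ℕ → ℕ → ℂ) : Prop :=
  ∀ x y : ℂ, 0 < x.im → 0 < y.im → (Pp n c y 1).eval x ≠ 0

lemma lower1 (h : Arr n c) (hs : Stab n c) {x y : ℂ} {z : ℝ} (hx : 0 < x.im) (hy : 0 < y.im)
    (hz : 0 < z) : x.im ^ n ≤ ‖(Pp n c y z).eval x‖ := by
  have h1 := lower_bound (Pp_monic n c y z).1 (x := x) ?_ hx
  · rwa [(Pp_monic n c y z).2] at h1
  · intro r hr
    by_contra hcon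
    push Not at hcon
    have hz0 : (z : ℂ) ≠ 0 := by exact_mod_cast hz.ne'
    have h2 := Pp_smul h (z : ℂ) (r / z) (y / z) 1
    rw [mul_one, mul_div_cancel₀ _ hz0, mul_div_cancel₀ _ hz0, hr] at h2
    have h3 := hs (r / z) (y / z) ?_ ?_
    · exact h3 ((mul_eq_zero.mp h2.symm).resolve_left (pow_ne_zero _ hz0))
    · rw [Complex.div_ofReal_im]; positivity
    · rw [Complex.div_ofReal_im]; positivity

lemma lower2 (h : Arr n c) (hs : Stab n c) {x y : ℂ} {z : ℝ} (hx : 0 < x.im) (hy : 0 ≤ y.im)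
    (hz : 0 ≤ z) : x.im ^ n ≤ ‖(Pp n c y z).eval x‖ := by
  have h1 : Tendsto (fun t : ℝ => ‖(Pp n c (y + t * Complex.I) ((z + t : ℝ) : ℂ)).eval x‖)
      (𝓝[>] 0) (𝓝 ‖(Pp n c y z).eval x‖) := by
    have h2 : Continuous fun t : ℝ =>
        ‖(Pp n c (y + t * Complex.I) ((z + t : ℝ) : ℂ)).eval x‖ := by
      have h3 : Continuous fun t : ℝ => ((y + t * Complex.I, ((z + t : ℝ) : ℂ)) : ℂ × ℂ) := by
        fun_prop
      exact ((continuous_Pp h x).comp h3).norm
    have h4 := h2.tendsto 0
    simp only [Complex.ofReal_zero, zero_mul, add_zero] at h4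
    exact h4.mono_left nhdsWithin_le_nhds
  refine ge_of_tendsto h1 ?_
  filter_upwards [self_mem_nhdsWithin] with t ht
  have ht' : 0 < t := ht
  refine lower1 h hs hx ?_ ?_
  · simp
    linarith
  · linarith

lemma real_roots (h : Arr n c) (hs : Stab n c) (y z : ℝ) {x : ℂ}
    (hx : (Pp n c y z).eval x = 0) : x.im = 0 := by
  have key : ∀ (y z : ℝ) (x : ℂ), 0 < x.im → (Pp n c y z).eval x ≠ 0 := by
    intro y z x hx h0
    have hp : 0 < x.im ^ n := by positivity
    rcases le_total 0 z with hz | hz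
    · have := lower2 h hs hx (y := (y : ℂ)) (by simp) hz
      rw [h0, norm_zero] at this
      linarith
    · have := lower2 h hs hx (y := (y : ℂ)) (z := -z) (by simp) (by linarith)
      rw [Complex.ofReal_neg, Pp_neg h, h0, norm_zero] at this
      linarith
  rcases lt_trichotomy x.im 0 with h1 | h1 | h1
  · exfalso
    have h2 := key (-y) (-z) (-x) (by simpa using h1)
    apply h2
    have h3 := Pp_smul h (-1) x y z
    rw [hx, mul_zero] at h3
    simpa using h3
  · exact h1
  · exact absurd hx (key y z x h1)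

lemma Pp_RR (h : Arr n c) (hs : Stab n c) (y z : ℝ) : RR n (Pp n c y z) := by
  obtain ⟨hm, hn⟩ := Pp_monic n c (y : ℂ) (z : ℂ)
  have h1 : Pp n c y z ∈ Polynomial.lifts (algebraMap ℝ ℂ) := by
    refine (IsAlgClosed.splits _).mem_lift_of_roots_mem_range hm _ fun r hr => ?_
    have h2 := real_roots h hs y z ((mem_roots hm.ne_zero).mp hr)
    refine ⟨r.re, ?_⟩
    apply Complex.ext
    · simp
    · simp [h2]
  rw [Polynomial.mem_lifts] at h1
  obtain ⟨F, hF⟩ := h1
  refine ⟨F, ?_, ?_, ?_, hF.symm⟩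
  · refine splits_of_real_roots fun z hz => ?_
    rw [hF] at hz
    exact real_roots h hs _ _ hz
  · rw [← hF] at hm
    exact Polynomial.monic_of_injective (algebraMap ℝ ℂ).injective hm
  · rw [← hF, natDegree_map] at hn
    exact hn

end Pool.Agent.H4.SkewDet
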