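import Pool.Agent.H4.SkewDet.Good

namespace Pool.Agent.H4.SkewDet

open Polynomial Matrix Filter Topology

variable {n : ℕ}

/-- evaluation at `(x, τ * I)` -/
noncomputable def e2 (x : ℂ) (τ : ℝ) (q : ℝ[X][X]) : ℂ := (q.map (ev τ)).eval x

lemma e2_ext {p q : ℝ[X][X]} (h : ∀ x τ, e2 x τ p = e2 x τ q) : p = q := by
  ext1 k
  refine ev_ext fun τ => ?_
  have h1 : p.map (ev τ) = q.map (ev τ) := Polynomial.funext fun x => h x τ
  have h2 := congrArg (fun f => coeff f k) h1
  simpa only [coeff_map] using h2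

/-- the matrix `A + i τ K` -/
noncomputable def mt (A K : Matrix (Fin n) (Fin n) ℝ) (τ : ℝ) : Matrix (Fin n) (Fin n) ℂ :=
  fun i j => (A i j : ℂ) + (τ : ℂ) * Complex.I * (K i j : ℂ)

lemma e2_charpoly (A K : Matrix (Fin n) (Fin n) ℝ) (x : ℂ) (τ : ℝ) :
    e2 x τ (A.map C + (X : ℝ[X]) • K.map C).charpoly =
      (Matrix.scalar (Fin n) x - mt A K τ).det := by
  rw [e2, ← Matrix.charpoly_map, Matrix.eval_charpoly]
  congr 2
  ext i j
  simp [mt, ev_X, ev_C]
  ring

lemma mt_isHermitian {A K : Matrix (Fin n) (Fin n) ℝ} (hA : Aᵀ = A) (hK : Kᵀ = -K) (τ : ℝ) :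
    (mt A K τ).IsHermitian := by
  ext i j
  rw [Matrix.conjTranspose_apply]
  have h1 : A j i = A i j := congrFun (congrFun hA i) j
  have h2 : K j i = - K i j := congrFun (congrFun hK i) j
  simp only [mt]
  rw [h1, h2]
  simp

/-- entries are bounded by the value of the determinant at `x = I` -/
lemma entry_bound {M : Matrix (Fin n) (Fin n) ℂ} (hM : M.IsHermitian) (i j : Fin n) :
    ‖M i j‖ ≤ n * ‖(Matrix.scalar (Fin n) Complex.I - M).det‖ := by
  set B := ‖(Matrix.scalar (Fin n) Complex.I - M).det‖ with hB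
  have h1 : (Matrix.scalar (Fin n) Complex.I - M).det = ∏ k, (Complex.I - (hM.eigenvalues k : ℂ))
      := by
    rw [← Matrix.eval_charpoly, hM.charpoly_eq, eval_prod]
    simp
  have hge : ∀ k, 1 ≤ ‖Complex.I - (hM.eigenvalues k : ℂ)‖ := by
    intro k
    have := Complex.abs_im_le_norm (Complex.I - (hM.eigenvalues k : ℂ))
    simpa using this
  have hge2 : ∀ k, |hM.eigenvalues k| ≤ ‖Complex.I - (hM.eigenvalues k : ℂ)‖ := by
    intro k
    have := Complex.abs_re_le_norm (Complex.I - (hM.eigenvalues k : ℂ))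
    simpa using this
  have h2 : ∀ k, |hM.eigenvalues k| ≤ B := by
    intro k
    rw [hB, h1, norm_prod]
    calc |hM.eigenvalues k| ≤ ‖Complex.I - (hM.eigenvalues k : ℂ)‖ := hge2 k
      _ ≤ ∏ l, ‖Complex.I - (hM.eigenvalues l : ℂ)‖ := by
        rw [← Finset.mul_prod_erase _ _ (Finset.mem_univ k)]
        apply le_mul_of_one_le_right (norm_nonneg _)
        calc (1 : ℝ) = ∏ _l ∈ Finset.univ.erase k, (1 : ℝ) := by simp
          _ ≤ _ := Finset.prod_le_prod (fun _ _ => zero_le_one) fun l _ => hge l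
  have h3 := hM.spectral_theorem
  have hU : (hM.eigenvectorUnitary : Matrix (Fin n) (Fin n) ℂ) ∈ Matrix.unitaryGroup (Fin n) ℂ :=
    hM.eigenvectorUnitary.2
  rw [Unitary.conjStarAlgAut_apply] at h3
  have h4 : M i j = ∑ k, (hM.eigenvectorUnitary : Matrix (Fin n) (Fin n) ℂ) i k *
      (hM.eigenvalues k : ℂ) * star ((hM.eigenvectorUnitary : Matrix (Fin n) (Fin n) ℂ) j k) := by
    conv_lhs => rw [h3]
    rw [Matrix.mul_apply]
    refine Finset.sum_congr rfl fun k _ => ?_
    rw [Matrix.mul_diagonal]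
    rfl
  rw [h4]
  calc _ ≤ ∑ k, ‖(hM.eigenvectorUnitary : Matrix (Fin n) (Fin n) ℂ) i k *
      (hM.eigenvalues k : ℂ) * star ((hM.eigenvectorUnitary : Matrix (Fin n) (Fin n) ℂ) j k)‖ :=
        norm_sum_le _ _
    _ ≤ ∑ _k : Fin n, B := by
        refine Finset.sum_le_sum fun k _ => ?_
        rw [norm_mul, norm_mul, norm_star]
        have h5 := entry_norm_bound_of_unitary hU i k
        have h6 := entry_norm_bound_of_unitary hU j k
        have h7 : ‖(hM.eigenvalues k : ℂ)‖ ≤ B := by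
          rw [Complex.norm_real, Real.norm_eq_abs]; exact h2 k
        calc _ ≤ 1 * B * 1 := by
              gcongr
          _ = B := by ring
    _ = n * B := by simp

lemma mt_bound {A K : Matrix (Fin n) (Fin n) ℝ} (hA : Aᵀ = A) (hK : Kᵀ = -K) {Q : ℝ[X][X]}
    (hQ : (A.map C + (X : ℝ[X]) • K.map C).charpoly = Q) (i j : Fin n) :
    |A i j| ≤ n * ‖e2 Complex.I 1 Q‖ ∧ |K i j| ≤ n * ‖e2 Complex.I 1 Q‖ := by
  have h1 := entry_bound (mt_isHermitian hA hK 1) i j
  rw [← e2_charpoly, hQ] at h1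
  constructor
  · refine le_trans ?_ h1
    have := Complex.abs_re_le_norm (mt A K 1 i j)
    simpa [mt] using this
  · refine le_trans ?_ h1
    have := Complex.abs_im_le_norm (mt A K 1 i j)
    simpa [mt] using this

lemma continuous_Opp (q : ℝ[X][X]) (x : ℂ) (τ : ℝ) (k : ℕ) : ∀ j : ℕ,
    Continuous fun ε : ℝ => e2 x τ (derivative^[j] ((Opp ε)^[k] q)) := by
  induction k with
  | zero =>
    intro j
    simp only [Function.iterate_zero, id]
    exact continuous_const
  | succ k ih =>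
    intro j
    have h1 : ∀ ε : ℝ, e2 x τ (derivative^[j] ((Opp ε)^[k + 1] q)) =
        e2 x τ (derivative^[j] ((Opp ε)^[k] q)) -
          ((ε * (1 + τ ^ 2) : ℝ) : ℂ) * e2 x τ (derivative^[j + 2] ((Opp ε)^[k] q)) := by
      intro ε
      rw [Function.iterate_succ_apply']
      set P := (Opp ε)^[k] q with hP
      have h2 : derivative^[j] (Opp ε P) = derivative^[j] P - C (C ε * (1 - X ^ 2)) *
          derivative^[j + 2] P := by
        have h3 : Opp ε P = P - C (C ε * (1 - X ^ 2)) * derivative (derivative P) := rfl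
        rw [h3, iterate_derivative_sub, iterate_derivative_C_mul]
        congr 2
      rw [h2]
      simp only [e2, Polynomial.map_sub, Polynomial.map_mul, map_C, eval_sub, eval_mul, eval_C,
        ev_factor]
    simp only [h1]
    refine (ih j).sub (Continuous.mul ?_ (ih (j + 2)))
    exact Complex.continuous_ofReal.comp (continuous_id.mul continuous_const)

/-- Representation theorem for the closed class. -/
theorem hyperbolic {n : ℕ} (hn : 0 < n) {q : ℝ[X][X]} (h : Good0 n q)
    (hreal : ∀ τ, RR n (q.map (ev τ))) (hinf : RR n (tp n q)) :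
    ∃ A K : Matrix (Fin n) (Fin n) ℝ, Aᵀ = A ∧ Kᵀ = -K ∧
      (A.map C + (X : ℝ[X]) • K.map C).charpoly = q := by
  set ε : ℕ → ℝ := fun k => 1 / ((k : ℝ) + 1) with hε
  have hεpos : ∀ k, 0 < ε k := fun k => Nat.one_div_pos_of_nat
  have hεlim : Tendsto ε atTop (𝓝 0) := tendsto_one_div_add_atTop_nhds_zero_nat
  choose A K hA hK hAK using fun k => perturbed hn h hreal hinf (hεpos k)
  have hcont : ∀ x τ, Tendsto (fun k => e2 x τ ((Opp (ε k))^[n] q)) atTop (𝓝 (e2 x τ q)) := by
    intro x τ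
    have h1 := (continuous_Opp q x τ n 0).tendsto 0
    have h2 : (Opp 0)^[n] q = q := by
      have : ∀ p, Opp 0 p = p := by
        intro p
        simp [Opp, op]
      exact Function.iterate_fixed (this q) n
    simp only [Function.iterate_zero, id] at h1
    rw [h2] at h1
    exact h1.comp hεlim
  -- boundedness
  obtain ⟨R, hR⟩ : ∃ R, ∀ k, ‖e2 Complex.I 1 ((Opp (ε k))^[n] q)‖ ≤ R := by
    obtain ⟨R, hR⟩ := (Metric.isBounded_range_of_tendsto _ (hcont Complex.I 1)).exists_norm_le
    exact ⟨R, fun k => hR _ (Set.mem_range_self k)⟩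
  set S : Set ((Fin n → Fin n → ℝ) × (Fin n → Fin n → ℝ)) := Metric.closedBall 0 (n * R) with hS
  have hR0 : 0 ≤ R := (norm_nonneg _).trans (hR 0)
  let Z : ℕ → (Fin n → Fin n → ℝ) × (Fin n → Fin n → ℝ) :=
    fun k => (fun i j => A k i j, fun i j => K k i j)
  have hmem : ∀ k, Z k ∈ S := by
    intro k
    rw [hS, Metric.mem_closedBall, dist_zero_right]
    have hnR : 0 ≤ (n : ℝ) * R := by positivity
    have hb : ∀ i j, |A k i j| ≤ n * R ∧ |K k i j| ≤ n * R := by
      intro i j
      obtain ⟨h1, h2⟩ := mt_bound (hA k) (hK k) (hAK k) i j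
      have h3 : (n : ℝ) * ‖e2 Complex.I 1 ((Opp (ε k))^[n] q)‖ ≤ n * R :=
        mul_le_mul_of_nonneg_left (hR k) (Nat.cast_nonneg n)
      exact ⟨h1.trans h3, h2.trans h3⟩
    rw [Prod.norm_def]
    refine max_le ?_ ?_
    · refine (pi_norm_le_iff_of_nonneg hnR).mpr fun i => (pi_norm_le_iff_of_nonneg hnR).mpr
        fun j => ?_
      exact (hb i j).1
    · refine (pi_norm_le_iff_of_nonneg hnR).mpr fun i => (pi_norm_le_iff_of_nonneg hnR).mpr
        fun j => ?_
      exact (hb i j).2
  obtain ⟨⟨A₀, K₀⟩, -, φ, hφ, hlim⟩ := tendsto_subseq_of_bounded Metric.isBounded_closedBall hmem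
  have hlimA : ∀ i j, Tendsto (fun k => A (φ k) i j) atTop (𝓝 (A₀ i j)) := by
    intro i j
    have h1 := (continuous_fst.tendsto _).comp hlim
    exact ((continuous_apply_apply i j).tendsto _).comp h1
  have hlimK : ∀ i j, Tendsto (fun k => K (φ k) i j) atTop (𝓝 (K₀ i j)) := by
    intro i j
    have h1 := (continuous_snd.tendsto _).comp hlim
    exact ((continuous_apply_apply i j).tendsto _).comp h1
  refine ⟨Matrix.of A₀, Matrix.of K₀, ?_, ?_, ?_⟩
  · ext i j
    refine tendsto_nhds_unique (hlimA j i) ?_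
    have : (fun k => A (φ k) j i) = fun k => A (φ k) i j := by
      funext k
      exact congrFun (congrFun (hA (φ k)) i) j
    rw [this]
    exact hlimA i j
  · ext i j
    refine tendsto_nhds_unique (hlimK j i) ?_
    have : (fun k => K (φ k) j i) = fun k => - K (φ k) i j := by
      funext k
      exact congrFun (congrFun (hK (φ k)) i) j
    rw [this]
    exact (hlimK i j).neg
  · refine e2_ext fun x τ => ?_
    rw [e2_charpoly]
    have h1 : Tendsto (fun k => e2 x τ ((Opp (ε (φ k)))^[n] q)) atTop (𝓝 (e2 x τ q)) :=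
      (hcont x τ).comp hφ.tendsto_atTop
    have h2 : Tendsto (fun k => (Matrix.scalar (Fin n) x - mt (A (φ k)) (K (φ k)) τ).det) atTop
        (𝓝 (Matrix.scalar (Fin n) x - mt (Matrix.of A₀) (Matrix.of K₀) τ).det) := by
      have h3 : Continuous (fun M : Matrix (Fin n) (Fin n) ℂ => M.det) := continuous_id.matrix_det
      refine (h3.tendsto _).comp ?_
      refine tendsto_pi_nhds.mpr fun i => tendsto_pi_nhds.mpr fun j => ?_
      refine Tendsto.sub tendsto_const_nhds ?_
      refine Tendsto.add ?_ (Tendsto.mul tendsto_const_nhds ?_)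
      · exact (Complex.continuous_ofReal.tendsto _).comp (hlimA i j)
      · exact (Complex.continuous_ofReal.tendsto _).comp (hlimK i j)
    refine tendsto_nhds_unique h2 ?_
    have h4 : (fun k => (Matrix.scalar (Fin n) x - mt (A (φ k)) (K (φ k)) τ).det) =
        fun k => e2 x τ ((Opp (ε (φ k)))^[n] q) := by
      funext k
      rw [← hAK (φ k), e2_charpoly]
    rw [h4]
    exact h1

end Pool.Agent.H4.SkewDet
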