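import Mathlib

namespace Pool.Agent.H4.SkewDet

open Polynomial Matrix

variable {R : Type*} [CommRing R] {n : ℕ}

/-- The companion matrix of `x ^ n + ∑ i < n, a i * x ^ i`: multiplication by `x` in the basis
`1, x, ..., x ^ (n - 1)`. -/
def cmp (n : ℕ) (a : ℕ → R) : Matrix (Fin n) (Fin n) R :=
  fun i j => if (j : ℕ) + 1 = n then - a i else if (i : ℕ) = j + 1 then 1 else 0

/-- The Hermite matrix (matrix of the trace form). -/
def hmt (n : ℕ) (a : ℕ → R) : Matrix (Fin n) (Fin n) R :=
  fun i j => Matrix.trace (cmp n a ^ ((i : ℕ) + (j : ℕ)))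

lemma cmp_map {S : Type*} [CommRing S] (f : R →+* S) (a : ℕ → R) :
    (cmp n a).map f = cmp n (fun k => f (a k)) := by
  ext i j
  simp only [Matrix.map_apply, cmp]
  split_ifs <;> simp

lemma hmt_map {S : Type*} [CommRing S] (f : R →+* S) (a : ℕ → R) :
    (hmt n a).map f = hmt n (fun k => f (a k)) := by
  ext i j
  simp only [Matrix.map_apply, hmt]
  rw [← cmp_map, ← RingHom.mapMatrix_apply, ← map_pow, RingHom.mapMatrix_apply]
  simp [Matrix.trace, Matrix.diag]

lemma hmt_symm (a : ℕ → R) : (hmt n a)ᵀ = hmt n a := by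
  ext i j
  simp [hmt, add_comm]

lemma vand_mul_cmp (a : ℕ → R) (r : Fin n → R)
    (h : ∀ k, ∑ i : Fin n, a i * r k ^ (i : ℕ) + r k ^ n = 0) :
    vandermonde r * cmp n a = diagonal r * vandermonde r := by
  ext k j
  rw [Matrix.mul_apply, Matrix.diagonal_mul, vandermonde_apply]
  simp only [vandermonde_apply, cmp]
  by_cases hj : (j : ℕ) + 1 = n
  · simp only [hj, if_true]
    have h1 := h k
    have h2 : r k * r k ^ (j : ℕ) = r k ^ n := by rw [← pow_succ', hj]
    rw [h2]
    have h3 : ∑ x : Fin n, r k ^ (x : ℕ) * -a x = - ∑ i : Fin n, a i * r k ^ (i : ℕ) := by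
      rw [← Finset.sum_neg_distrib]
      exact Finset.sum_congr rfl fun i _ => by ring
    rw [h3]
    linear_combination -h1
  · simp only [hj, if_false]
    have hlt : (j : ℕ) + 1 < n := by omega
    rw [Finset.sum_eq_single (⟨(j : ℕ) + 1, hlt⟩ : Fin n)]
    · simp [pow_succ']
    · intro b _ hb
      have : (b : ℕ) ≠ (j : ℕ) + 1 := fun h' => hb (Fin.ext h')
      simp [this]
    · intro h'
      exact absurd (Finset.mem_univ _) h'

section Field

variable {K : Type*} [Field K]

lemma vand_isUnit {r : Fin n → K} (hr : Function.Injective r) : IsUnit (vandermonde r).det :=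
  isUnit_iff_ne_zero.mpr (det_vandermonde_ne_zero_iff.mpr hr)

lemma cmp_eq (a : ℕ → K) (r : Fin n → K) (hr : Function.Injective r)
    (h : ∀ k, ∑ i : Fin n, a i * r k ^ (i : ℕ) + r k ^ n = 0) :
    cmp n a = (vandermonde r)⁻¹ * diagonal r * vandermonde r := by
  have h1 := vand_mul_cmp a r h
  have h2 := Matrix.nonsing_inv_mul _ (vand_isUnit hr)
  calc cmp n a = ((vandermonde r)⁻¹ * vandermonde r) * cmp n a := by rw [h2, one_mul]
    _ = (vandermonde r)⁻¹ * (vandermonde r * cmp n a) := by rw [Matrix.mul_assoc]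
    _ = _ := by rw [h1, Matrix.mul_assoc]

lemma cmp_pow (a : ℕ → K) (r : Fin n → K) (hr : Function.Injective r)
    (h : ∀ k, ∑ i : Fin n, a i * r k ^ (i : ℕ) + r k ^ n = 0) (m : ℕ) :
    cmp n a ^ m = (vandermonde r)⁻¹ * diagonal (fun k => r k ^ m) * vandermonde r := by
  induction m with
  | zero =>
    simp only [pow_zero]
    rw [Matrix.diagonal_one, Matrix.mul_one, Matrix.nonsing_inv_mul _ (vand_isUnit hr)]
  | succ m ih =>
    rw [pow_succ, ih, cmp_eq a r hr h]
    have h2 := Matrix.mul_nonsing_inv _ (vand_isUnit hr)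
    calc (vandermonde r)⁻¹ * diagonal (fun k => r k ^ m) * vandermonde r *
          ((vandermonde r)⁻¹ * diagonal r * vandermonde r)
        = (vandermonde r)⁻¹ * diagonal (fun k => r k ^ m) *
          (vandermonde r * (vandermonde r)⁻¹) * diagonal r * vandermonde r := by
            simp only [Matrix.mul_assoc]
      _ = (vandermonde r)⁻¹ * (diagonal (fun k => r k ^ m) * diagonal r) * vandermonde r := by
            rw [h2, Matrix.mul_one]; simp only [Matrix.mul_assoc]
      _ = _ := by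
            rw [Matrix.diagonal_mul_diagonal]
            simp only [pow_succ]

lemma trace_cmp_pow (a : ℕ → K) (r : Fin n → K) (hr : Function.Injective r)
    (h : ∀ k, ∑ i : Fin n, a i * r k ^ (i : ℕ) + r k ^ n = 0) (m : ℕ) :
    Matrix.trace (cmp n a ^ m) = ∑ k, r k ^ m := by
  rw [cmp_pow a r hr h m, Matrix.mul_assoc, Matrix.trace_mul_comm, Matrix.mul_assoc,
    Matrix.mul_nonsing_inv _ (vand_isUnit hr), Matrix.mul_one, Matrix.trace_diagonal]

lemma hmt_eq (a : ℕ → K) (r : Fin n → K) (hr : Function.Injective r)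
    (h : ∀ k, ∑ i : Fin n, a i * r k ^ (i : ℕ) + r k ^ n = 0) :
    hmt n a = (vandermonde r)ᵀ * vandermonde r := by
  ext i j
  rw [Matrix.mul_apply, hmt, trace_cmp_pow a r hr h]
  simp [vandermonde_apply, pow_add]

lemma hmt_mul_cmp (a : ℕ → K) (r : Fin n → K) (hr : Function.Injective r)
    (h : ∀ k, ∑ i : Fin n, a i * r k ^ (i : ℕ) + r k ^ n = 0) :
    hmt n a * cmp n a = (vandermonde r)ᵀ * diagonal r * vandermonde r := by
  rw [hmt_eq a r hr h, Matrix.mul_assoc, vand_mul_cmp a r h, Matrix.mul_assoc]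

lemma hmt_mul_cmp_symm (a : ℕ → K) (r : Fin n → K) (hr : Function.Injective r)
    (h : ∀ k, ∑ i : Fin n, a i * r k ^ (i : ℕ) + r k ^ n = 0) :
    (hmt n a * cmp n a)ᵀ = hmt n a * cmp n a := by
  rw [hmt_mul_cmp a r hr h]
  simp only [Matrix.transpose_mul, Matrix.diagonal_transpose, Matrix.transpose_transpose,
    Matrix.mul_assoc]

lemma charpoly_cmp (a : ℕ → K) (r : Fin n → K) (hr : Function.Injective r)
    (h : ∀ k, ∑ i : Fin n, a i * r k ^ (i : ℕ) + r k ^ n = 0) :
    (cmp n a).charpoly = ∏ k, (X - C (r k)) := by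
  have hu := vand_isUnit hr
  have h1 : (cmp n a).charpoly = (diagonal r).charpoly := by
    rw [cmp_eq a r hr h]
    have := Matrix.charpoly_mul_comm ((vandermonde r)⁻¹ * diagonal r) (vandermonde r)
    rw [this, ← Matrix.mul_assoc, Matrix.mul_nonsing_inv _ hu, one_mul]
  rw [h1, Matrix.charpoly, Matrix.charmatrix]
  have : (scalar (Fin n)) X - C.mapMatrix (diagonal r) = diagonal (fun k => X - C (r k)) := by
    ext i j
    by_cases hij : i = j
    · subst hij; simp
    · simp [hij]
  rw [this, Matrix.det_diagonal]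

end Field

end Pool.Agent.H4.SkewDet
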