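import Mathlib

namespace Pool.Agent.H4.SkewDet

open Polynomial Matrix

variable {n : ℕ}

lemma X_sub_C_mul_divByMonic (a : ℂ) (f : ℂ[X]) :
    (X - C a) * (f /ₘ (X - C a)) = f - C (f.eval a) := by
  have h := modByMonic_add_div f (X - C a)
  rw [modByMonic_X_sub_C_eq_C_eval] at h
  rw [eq_sub_iff_add_eq, add_comm]
  exact h

/-- the linear map `f ↦ (f - f(a)) / (X - a)` -/
noncomputable def qa (a : ℂ) : ℂ[X] →ₗ[ℂ] ℂ[X] where
  toFun f := f /ₘ (X - C a)
  map_add' f g := by
    apply mul_left_cancel₀ (X_sub_C_ne_zero a)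
    rw [mul_add, X_sub_C_mul_divByMonic, X_sub_C_mul_divByMonic, X_sub_C_mul_divByMonic,
      eval_add, C_add]
    ring
  map_smul' c f := by
    apply mul_left_cancel₀ (X_sub_C_ne_zero a)
    rw [RingHom.id_apply, mul_smul_comm, X_sub_C_mul_divByMonic, X_sub_C_mul_divByMonic,
      eval_smul, smul_sub, smul_eq_mul, C_mul, smul_eq_C_mul, smul_eq_C_mul]

lemma mul_qa (a : ℂ) (f : ℂ[X]) : (X - C a) * qa a f = f - C (f.eval a) :=
  X_sub_C_mul_divByMonic a f

/-- coordinates `u` adapted to the vector `v` with `v i₀ = 1` -/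
noncomputable def coord (v : Fin n → ℂ) (i₀ j : Fin n) : (Fin n → ℂ[X]) →ₗ[ℂ] ℂ[X] :=
  LinearMap.proj j - v j • LinearMap.proj i₀

lemma coord_apply (v : Fin n → ℂ) (i₀ j : Fin n) (g : Fin n → ℂ[X]) :
    coord v i₀ j g = g j - C (v j) * g i₀ := by
  simp [coord, smul_eq_C_mul]

/-- next coordinates -/
noncomputable def nxt (a : ℂ) (v : Fin n → ℂ) (i₀ : Fin n) :
    (Fin n → ℂ[X]) →ₗ[ℂ] (Fin n → ℂ[X]) :=
  LinearMap.pi fun j => if j = i₀ then LinearMap.proj i₀ else (qa a).comp (coord v i₀ j)

lemma nxt_apply_self (a : ℂ) (v : Fin n → ℂ) (i₀ : Fin n) (g : Fin n → ℂ[X]) :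
    nxt a v i₀ g i₀ = g i₀ := by
  simp [nxt]

lemma nxt_apply_ne (a : ℂ) (v : Fin n → ℂ) (i₀ j : Fin n) (hj : j ≠ i₀) (g : Fin n → ℂ[X]) :
    nxt a v i₀ g j = qa a (coord v i₀ j g) := by
  simp [nxt, hj]

lemma exists_constraints (D : ℕ) : ∀ (H : Matrix (Fin n) (Fin n) ℂ[X]) (d : ℂ[X]),
    d.natDegree = D → d ≠ 0 → d ∣ H.det →
    ∃ S : Finset (Module.Dual ℂ (Fin n → ℂ[X])), S.card ≤ (n - 1) * D ∧
      ∀ g : Fin n → ℂ[X], (∀ f ∈ S, f g = 0) → ∀ i, d ∣ (H *ᵥ g) i := by
  classical
  induction D with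
  | zero =>
    intro H d hd hd0 _
    refine ⟨∅, by simp, ?_⟩
    intro g _ i
    have : IsUnit d := by
      rw [Polynomial.isUnit_iff_degree_eq_zero, degree_eq_natDegree hd0, hd]
      rfl
    exact this.dvd
  | succ D ih =>
    intro H d hd hd0 hdvd
    obtain ⟨a, ha⟩ : ∃ a, IsRoot d a := by
      apply IsAlgClosed.exists_root
      rw [degree_eq_natDegree hd0, hd]
      exact_mod_cast Nat.succ_ne_zero D
    obtain ⟨d', hd'⟩ := dvd_iff_isRoot.mpr ha
    have hd'0 : d' ≠ 0 := by
      rintro rfl
      rw [mul_zero] at hd'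
      exact hd0 hd'
    have hd'deg : d'.natDegree = D := by
      have : d.natDegree = (X - C a).natDegree + d'.natDegree := by
        rw [hd', natDegree_mul (X_sub_C_ne_zero a) hd'0]
      rw [natDegree_X_sub_C] at this
      omega
    -- singular at `a`
    have hsing : (H.map (eval a)).det = 0 := by
      have h1 : (H.map (evalRingHom a)).det = evalRingHom a H.det := by
        rw [RingHom.map_det]; rfl
      have h2 : H.det.eval a = 0 := by
        obtain ⟨k, hk⟩ := hdvd
        rw [hk, eval_mul, ha, zero_mul]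
      have h3 : (H.map (eval a)).det = (H.map (evalRingHom a)).det := rfl
      rw [h3, h1]
      exact h2
    obtain ⟨v₀, hv₀, hHv₀⟩ := Matrix.exists_mulVec_eq_zero_iff.mpr hsing
    obtain ⟨i₀, hi₀⟩ : ∃ i, v₀ i ≠ 0 := by
      by_contra hcon
      push Not at hcon
      exact hv₀ (funext hcon)
    set v : Fin n → ℂ := fun j => (v₀ i₀)⁻¹ * v₀ j with hv
    have hvi₀ : v i₀ = 1 := by
      rw [hv]
      exact inv_mul_cancel₀ hi₀
    have hHv : (H.map (eval a)) *ᵥ v = 0 := by
      have : v = (v₀ i₀)⁻¹ • v₀ := rfl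
      rw [this, Matrix.mulVec_smul, hHv₀, smul_zero]
    -- the column
    set w : Fin n → ℂ[X] := fun i => (H *ᵥ (fun j => C (v j))) i with hw
    have hwa : ∀ i, (w i).eval a = 0 := by
      intro i
      have h1 := congrFun hHv i
      simp only [Matrix.mulVec, dotProduct, Matrix.map_apply, Pi.zero_apply] at h1
      simp only [hw, Matrix.mulVec, dotProduct, eval_finsetSum, eval_mul, eval_C]
      exact h1
    have hwq : ∀ i, w i = (X - C a) * qa a (w i) := by
      intro i
      rw [mul_qa, hwa, C_0, sub_zero]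
    set H' : Matrix (Fin n) (Fin n) ℂ[X] := H.updateCol i₀ (fun i => qa a (w i)) with hH'
    have hdet : (X - C a) * H'.det = H.det := by
      have h1 : (H.updateCol i₀ w).det = (X - C a) * H'.det := by
        have : w = (X - C a) • (fun i => qa a (w i)) := by
          funext i
          rw [Pi.smul_apply, smul_eq_mul]
          exact hwq i
        rw [this, det_updateCol_smul, hH']
      rw [← h1]
      have h2 : (H.updateCol i₀ w).det = cramer H w i₀ := by rw [cramer_apply]
      rw [h2, cramer_eq_adjugate_mulVec]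
      have h3 : w = H *ᵥ (fun j => C (v j)) := rfl
      rw [h3, Matrix.mulVec_mulVec, adjugate_mul, Matrix.smul_mulVec, Matrix.one_mulVec,
        Pi.smul_apply, hvi₀]
      simp
    have hdvd' : d' ∣ H'.det := by
      rw [← hdet, hd'] at hdvd
      exact (mul_dvd_mul_iff_left (X_sub_C_ne_zero a)).mp hdvd
    obtain ⟨S', hS'card, hS'⟩ := ih H' d' hd'deg hd'0 hdvd'
    refine ⟨(Finset.univ.erase i₀).image
        (fun j => ((aeval a).toLinearMap : ℂ[X] →ₗ[ℂ] ℂ).comp (coord v i₀ j)) ∪
        S'.image (fun f => f.comp (nxt a v i₀)), ?_, ?_⟩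
    · refine (Finset.card_union_le _ _).trans ?_
      have h1 := Finset.card_image_le (s := Finset.univ.erase i₀)
        (f := fun j => ((aeval a).toLinearMap : ℂ[X] →ₗ[ℂ] ℂ).comp (coord v i₀ j))
      have h2 := Finset.card_image_le (s := S') (f := fun f => f.comp (nxt a v i₀))
      rw [Finset.card_erase_of_mem (Finset.mem_univ _), Finset.card_univ, Fintype.card_fin] at h1
      calc _ ≤ (n - 1) + (n - 1) * D := by
            exact Nat.add_le_add h1 (h2.trans hS'card)
        _ = (n - 1) * (D + 1) := by ring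
    · intro g hg i
      have hg1 : ∀ j, j ≠ i₀ → (coord v i₀ j g).eval a = 0 := by
        intro j hj
        have := hg (((aeval a).toLinearMap : ℂ[X] →ₗ[ℂ] ℂ).comp (coord v i₀ j))
          (Finset.mem_union_left _ (Finset.mem_image_of_mem _
            (Finset.mem_erase.mpr ⟨hj, Finset.mem_univ _⟩)))
        simpa [aeval_def, eval₂_eq_eval_map] using this
      have hg2 : ∀ f ∈ S', f (nxt a v i₀ g) = 0 := by
        intro f hf
        exact hg (f.comp (nxt a v i₀)) (Finset.mem_union_right _ (Finset.mem_image_of_mem _ hf))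
      have h3 := hS' (nxt a v i₀ g) hg2 i
      have h4 : (H *ᵥ g) i = (X - C a) * (H' *ᵥ (nxt a v i₀ g)) i := by
        have hsplit : g = (fun j => if j = i₀ then 0 else coord v i₀ j g) +
            g i₀ • (fun j => C (v j)) := by
          funext j
          by_cases hj : j = i₀
          · subst hj
            simp [hvi₀]
          · simp [hj, coord_apply, mul_comm]
        have h5 : (H *ᵥ g) i = ∑ j, H i j * (if j = i₀ then 0 else coord v i₀ j g) +
            g i₀ * w i := by
          conv_lhs => rw [hsplit, Matrix.mulVec_add, Matrix.mulVec_smul]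
          rfl
        rw [h5]
        simp only [Matrix.mulVec, dotProduct]
        rw [Finset.mul_sum, ← Finset.add_sum_erase _ _ (Finset.mem_univ i₀),
          ← Finset.add_sum_erase Finset.univ (fun j => (X - C a) * (H' i j * nxt a v i₀ g j))
            (Finset.mem_univ i₀)]
        rw [if_pos rfl, mul_zero, zero_add, add_comm]
        congr 1
        · rw [nxt_apply_self, hH', updateCol_self]
          conv_lhs => rw [hwq i]
          ring
        · refine Finset.sum_congr rfl fun j hj => ?_
          have hj' : j ≠ i₀ := (Finset.mem_erase.mp hj).1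
          rw [if_neg hj', nxt_apply_ne _ _ _ _ hj', hH', updateCol_ne hj']
          have : coord v i₀ j g = (X - C a) * qa a (coord v i₀ j g) := by
            rw [mul_qa, hg1 j hj', C_0, sub_zero]
          conv_lhs => rw [this]
          ring
      rw [h4, hd']
      exact mul_dvd_mul_left _ h3

end Pool.Agent.H4.SkewDet
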