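import Pool.Agent.H4.SkewDet.Surj

namespace Pool.Agent.H4.SkewDet

open Polynomial Matrix Module

variable {n : ℕ}

/-- left inverse up to a scalar is a right inverse up to the scalar -/
lemma scalar_inverse_comm {R : Type*} [CommRing R] [IsDomain R] {M N : Matrix (Fin n) (Fin n) R}
    {δ : R} (hN : N.det ≠ 0) (h : M * N = δ • (1 : Matrix (Fin n) (Fin n) R)) :
    N * M = δ • (1 : Matrix (Fin n) (Fin n) R) := by
  have h1 : (N * M - δ • (1 : Matrix (Fin n) (Fin n) R)) * N = 0 := by
    rw [sub_mul, Matrix.mul_assoc, h, Matrix.mul_smul, Matrix.mul_one, Matrix.smul_mul,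
      Matrix.one_mul, sub_self]
  have h2 : (N * M - δ • (1 : Matrix (Fin n) (Fin n) R)) * (N.det • (1 : Matrix _ _ R)) = 0 := by
    rw [← Matrix.mul_adjugate, ← Matrix.mul_assoc, h1, Matrix.zero_mul]
  rw [Matrix.mul_smul, Matrix.mul_one] at h2
  rw [← sub_eq_zero]
  ext i j
  have h3 := congrFun (congrFun h2 i) j
  rw [Matrix.smul_apply, smul_eq_mul] at h3
  rcases mul_eq_zero.mp h3 with h | h
  · exact absurd h hN
  · exact h

lemma charpoly_eq_of_intertwine {R : Type*} [CommRing R] [IsDomain R]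
    {A B G : Matrix (Fin n) (Fin n) R} (hG : G.det ≠ 0) (h : B * G = G * A) :
    B.charpoly = A.charpoly := by
  have h1 : charmatrix B * G.map C = G.map C * charmatrix A := by
    rw [charmatrix, charmatrix, sub_mul, mul_sub]
    have h2 : (C : R →+* R[X]).mapMatrix B * G.map C = G.map C * (C : R →+* R[X]).mapMatrix A := by
      have := congrArg (fun M => M.map (C : R →+* R[X])) h
      simpa [Matrix.map_mul] using this
    rw [h2]
    congr 1
    exact (Matrix.scalar_commute _ (fun r => Commute.all _ _) _).eq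
  have h3 := congrArg Matrix.det h1
  rw [Matrix.det_mul, Matrix.det_mul] at h3
  have h4 : (G.map (C : R →+* R[X])).det ≠ 0 := by
    have : (G.map (C : R →+* R[X])).det = C G.det := by rw [RingHom.map_det]; rfl
    rw [this]
    exact C_ne_zero.mpr hG
  rw [mul_comm] at h3
  exact mul_left_cancel₀ h4 h3

/-- Structured spectral factorisation. -/
theorem structured {H Cm : Matrix (Fin n) (Fin n) ℝ[X]} (hn : 0 < n)
    (hs : Hᵀ = H) (he : ∀ i j, (H i j).comp (-X) = H i j)
    (hce : ∀ i j, (Cm i j).comp (-X) = Cm i j)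
    (hdeg : ∀ i j, (H i j).natDegree ≤ (i : ℕ) + j) (hwt : Wt 1 Cm)
    (hHC : (H * Cm)ᵀ = H * Cm)
    (hpos : ∀ τ : ℝ, ∃ V : Matrix (Fin n) (Fin n) ℝ, IsUnit V.det ∧
      H.map (ev τ) = (Vᵀ * V).map (algebraMap ℝ ℂ))
    (hdet : H.det.natDegree = ∑ j : Fin n, 2 * (j : ℕ)) :
    ∃ A K : Matrix (Fin n) (Fin n) ℝ, Aᵀ = A ∧ Kᵀ = -K ∧
      (A.map C + (X : ℝ[X]) • K.map C).charpoly = Cm.charpoly := by
  set D := ∑ j : Fin n, (j : ℕ) with hD
  have hdet2 : H.det.natDegree = 2 * D := by rw [hdet, hD, Finset.mul_sum]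
  have hnD : n ≤ D + 1 := by
    have : (⟨n - 1, by omega⟩ : Fin n).val ≤ D :=
      Finset.single_le_sum (f := fun j : Fin n => (j : ℕ)) (fun _ _ => Nat.zero_le _)
        (Finset.mem_univ _)
    simp only at this
    omega
  -- evenness of the determinant
  have hδe : H.det.comp (-X) = H.det := by
    have h1 : (compRingHom (-X : ℝ[X])) H.det = (H.map (compRingHom (-X : ℝ[X]))).det := by
      rw [RingHom.map_det]; rfl
    have h2 : H.map (compRingHom (-X : ℝ[X])) = H := by
      ext1 i j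
      exact he i j
    rw [h2] at h1
    exact h1
  have hδdet : ∀ (τ : ℝ) (V : Matrix (Fin n) (Fin n) ℝ),
      H.map (ev τ) = (Vᵀ * V).map (algebraMap ℝ ℂ) → ev τ H.det = ((V.det ^ 2 : ℝ) : ℂ) := by
    intro τ V hV
    have h1 : ev τ H.det = (H.map (ev τ)).det := by rw [RingHom.map_det]; rfl
    have h2 : ((Vᵀ * V).map (algebraMap ℝ ℂ)).det = algebraMap ℝ ℂ (Vᵀ * V).det := by
      rw [RingHom.map_det]; rfl
    rw [h1, hV, h2, Matrix.det_mul, Matrix.det_transpose, pow_two]
    rfl
  have hδne : ∀ τ, ev τ H.det ≠ 0 := by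
    intro τ
    obtain ⟨V, hV, hMV⟩ := hpos τ
    rw [hδdet τ V hMV]
    have := hV.ne_zero
    exact_mod_cast pow_ne_zero 2 this
  obtain ⟨c, d, hcd, hHw⟩ := exists_factor _ H.det le_rfl hδe hδne
  have hdc := hHw.coprime
  have hH0 : H.det ≠ 0 := fun h => hδne 0 (by rw [h, map_zero])
  have hd0 : d ≠ 0 := by
    rintro rfl
    rw [zero_mul, mul_zero] at hcd
    exact hH0 hcd
  have hdm0 : d.comp (-X) ≠ 0 := by
    intro h
    rw [h, mul_zero, mul_zero] at hcd
    exact hH0 hcd
  have hc0 : c ≠ 0 := by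
    rintro rfl
    rw [C_0, zero_mul] at hcd
    exact hH0 hcd
  have hdd : d.natDegree = D := by
    have h1 : H.det.natDegree = d.natDegree + (d.comp (-X)).natDegree := by
      conv_lhs => rw [hcd]
      rw [natDegree_C_mul hc0, natDegree_mul hd0 hdm0]
    rw [natDegree_comp_neg, hdet2] at h1
    omega
  -- at zero
  obtain ⟨V₀, hV₀, hMV₀⟩ := hpos 0
  have hδ0 : H.det.eval 0 = V₀.det ^ 2 := by
    have := hδdet 0 V₀ hMV₀
    rw [ev_zero] at this
    exact_mod_cast this
  have hδ0' : H.det.eval 0 = c * (d.eval 0) ^ 2 := by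
    conv_lhs => rw [hcd]
    rw [eval_mul, eval_mul, eval_C, eval_zero_comp_neg]
    ring
  have hpos0 : 0 < V₀.det ^ 2 := by
    have := hV₀.ne_zero
    positivity
  have hde : d.eval 0 ≠ 0 := by
    intro h
    rw [h, hδ0] at hδ0'
    rw [hδ0'] at hpos0
    simp at hpos0
  have hH0V : H.map (eval 0) = V₀ᵀ * V₀ := by
    ext i j
    have h1 := congrFun (congrFun hMV₀ i) j
    rw [Matrix.map_apply, ev_zero, Matrix.map_apply] at h1
    rw [Matrix.map_apply]
    exact Complex.ofReal_injective h1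
  have hdvd : d ∣ H.det := ⟨C c * d.comp (-X), by rw [hcd]; ring⟩
  -- the scaling factor
  set μ : ℝ := Real.sqrt (c * (d.eval 0) ^ 2) with hμ
  have hμ2 : μ * μ = c * (d.eval 0) ^ 2 := by
    rw [hμ, Real.mul_self_sqrt]
    rw [← hδ0', hδ0]
    exact hpos0.le
  set G₀ : Matrix (Fin n) (Fin n) ℝ := μ • V₀⁻¹ with hG₀
  have hex := fun k : Fin n => InL.exists_eval_zero hn hnD hD hs he hdeg hdc hdd hd0 hde hdvd
    hpos (fun i => G₀ i k)
  choose g hgL hg0 using hex
  -- dual basis at zero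
  have horth : ∀ i j, (fun l => (g i l).eval 0) ⬝ᵥ
      ((H.map (eval 0)) *ᵥ (fun l => (g j l).eval 0)) =
        if i = j then c * (d.eval 0) ^ 2 else 0 := by
    intro i j
    have h1 : (fun l => (g i l).eval 0) ⬝ᵥ ((H.map (eval 0)) *ᵥ (fun l => (g j l).eval 0)) =
        (G₀ᵀ * (V₀ᵀ * V₀) * G₀) i j := by
      rw [hH0V]
      simp only [hg0]
      rw [Matrix.mul_assoc, Matrix.mul_apply]
      simp only [dotProduct, Matrix.mulVec, Matrix.mul_apply, Matrix.transpose_apply]
    rw [h1]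
    have h2 : G₀ᵀ * (V₀ᵀ * V₀) * G₀ = (μ * μ) • (1 : Matrix (Fin n) (Fin n) ℝ) := by
      have h3 : V₀ * G₀ = μ • (1 : Matrix (Fin n) (Fin n) ℝ) := by
        rw [hG₀, Matrix.mul_smul, Matrix.mul_nonsing_inv _ hV₀]
      have h4 : G₀ᵀ * V₀ᵀ = μ • (1 : Matrix (Fin n) (Fin n) ℝ) := by
        rw [← Matrix.transpose_mul, h3, Matrix.transpose_smul, Matrix.transpose_one]
      calc G₀ᵀ * (V₀ᵀ * V₀) * G₀ = (G₀ᵀ * V₀ᵀ) * (V₀ * G₀) := by
            simp only [Matrix.mul_assoc]
        _ = _ := by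
            rw [h3, h4, Matrix.smul_mul, Matrix.one_mul, smul_smul]
    rw [h2, Matrix.smul_apply, Matrix.one_apply, hμ2, smul_eq_mul]
    split_ifs <;> simp
  have hpairH : ∀ i j, pair H (g i) (g j) = if i = j then H.det else 0 := by
    intro i j
    obtain ⟨κ, hκ⟩ := (hgL j).pair_const hnD hs he hdeg hdc hdd hd0 (hgL i)
    have h1 := pair_eval_zero H (g i) (g j)
    rw [horth, hκ] at h1
    simp only [eval_mul, eval_zero_comp_neg, eval_C] at h1
    rw [hκ]
    by_cases hij : i = j
    · rw [if_pos hij] at h1 ⊢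
      have : κ = c := by
        have h2 : (d.eval 0 * d.eval 0) * κ = (d.eval 0 * d.eval 0) * c := by
          rw [h1]; ring
        exact mul_left_cancel₀ (mul_ne_zero hde hde) h2
      rw [this]
      conv_rhs => rw [hcd]
      ring
    · rw [if_neg hij] at h1 ⊢
      have : κ = 0 := by
        rcases mul_eq_zero.mp h1 with h | h
        · exact absurd h (mul_ne_zero hde hde)
        · exact h
      rw [this, C_0, mul_zero]
  -- second pairing
  have hMe : ∀ i j, ((H * Cm) i j).comp (-X) = (H * Cm) i j := by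
    intro i j
    rw [Matrix.mul_apply, comp_sum']
    refine Finset.sum_congr rfl fun k _ => ?_
    rw [mul_comp, he, hce]
  have hMdeg : ∀ i j, ((H * Cm) i j).natDegree ≤ (i : ℕ) + j + 1 := by
    intro i j
    rw [Matrix.mul_apply]
    refine natDegree_sum_le_of_forall_le _ _ fun k _ => ?_
    by_cases hk : (k : ℕ) ≤ 1 + j
    · refine natDegree_mul_le.trans ?_
      have h1 := hdeg i k
      have h2 := hwt.natDegree_le k j
      omega
    · rw [hwt.eq_zero (by omega : 1 + (j : ℕ) < k), mul_zero]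
      simp
  have hMdvd : ∀ k, ∀ i, d ∣ ((H * Cm) *ᵥ g k) i := by
    intro k i
    have h1 : H * Cm = Cmᵀ * H := by
      rw [← hHC, Matrix.transpose_mul, hs]
    rw [h1, ← Matrix.mulVec_mulVec]
    have h2 : (Cmᵀ *ᵥ (H *ᵥ g k)) i = ∑ j, Cmᵀ i j * (H *ᵥ g k) j := rfl
    rw [h2]
    exact Finset.dvd_sum fun j _ => ((hgL k).dvd j).mul_left _
  have hpairM : ∀ i j, ∃ q : ℝ[X], pair (H * Cm) (g i) (g j) = H.det * q ∧
      q.natDegree ≤ 1 := by
    intro i j
    have h1 := mul_dvd_pair hHC hMe hdc (hMdvd j) (hMdvd i)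
    have h2 : (pair (H * Cm) (g i) (g j)).natDegree ≤ 2 * D + 1 :=
      pair_natDegree_le hnD hMdeg (hgL j).deg (hgL i).deg
    obtain ⟨k, hk, hkd⟩ := exists_of_dvd hdd hd0 h1 h2
    refine ⟨C c⁻¹ * k, ?_, ?_⟩
    · rw [hk]
      conv_rhs => rw [hcd]
      have h3 : C c * C c⁻¹ = (1 : ℝ[X]) := by rw [← C_mul, mul_inv_cancel₀ hc0, C_1]
      calc d * d.comp (-X) * k = (C c * C c⁻¹) * (d * d.comp (-X) * k) := by rw [h3, one_mul]
        _ = _ := by ring
    · exact (natDegree_C_mul_le _ _).trans hkd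
  choose q hq hqd using hpairM
  set A : Matrix (Fin n) (Fin n) ℝ := Matrix.of fun i j => (q i j).coeff 0 with hA
  set K : Matrix (Fin n) (Fin n) ℝ := Matrix.of fun i j => (q i j).coeff 1 with hK
  have hqAK : ∀ i j, q i j = C (A i j) + X * C (K i j) := by
    intro i j
    have := Polynomial.eq_X_add_C_of_natDegree_le_one (hqd i j)
    rw [this]
    simp [hA, hK]
    ring
  have hqmat : A.map C + (X : ℝ[X]) • K.map C = Matrix.of q := by
    ext1 i j
    rw [Matrix.of_apply, hqAK]
    simp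
  have hqsymm : ∀ i j, (q i j).comp (-X) = q j i := by
    intro i j
    have h1 := pair_comp_neg hHC hMe (g i) (g j)
    rw [hq i j, hq j i, mul_comp, hδe] at h1
    exact mul_left_cancel₀ hH0 h1
  have hAK : ∀ i j, A i j = A j i ∧ K j i = - K i j := by
    intro i j
    have h1 := hqsymm i j
    rw [hqAK i j, hqAK j i] at h1
    simp only [add_comp, mul_comp, C_comp, X_comp] at h1
    constructor
    · have := congrArg (fun p => coeff p 0) h1
      simpa using this
    · have := congrArg (fun p => coeff p 1) h1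
      simp only [coeff_add, coeff_C_succ, zero_add, neg_mul, coeff_neg, coeff_X_mul,
        coeff_C_zero] at this
      rw [this]
  refine ⟨A, K, ?_, ?_, ?_⟩
  · ext i j
    exact (hAK i j).1.symm
  · ext i j
    rw [Matrix.transpose_apply, Matrix.neg_apply]
    exact (hAK i j).2
  · rw [hqmat]
    symm
    set G : Matrix (Fin n) (Fin n) ℝ[X] := Matrix.of fun i j => g j i with hG
    set Gs : Matrix (Fin n) (Fin n) ℝ[X] := Matrix.of fun i j => (g i j).comp (-X) with hGs
    have hmat : ∀ M : Matrix (Fin n) (Fin n) ℝ[X], Gs * M * G = Matrix.of fun i j =>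
        pair M (g i) (g j) := by
      intro M
      ext1 i j
      rw [Matrix.mul_assoc, Matrix.mul_apply, Matrix.of_apply, pair]
      simp only [dotProduct, hGs, Matrix.of_apply]
      rfl
    have hGHG : Gs * H * G = H.det • (1 : Matrix (Fin n) (Fin n) ℝ[X]) := by
      rw [hmat]
      ext1 i j
      rw [Matrix.of_apply, hpairH, Matrix.smul_apply, Matrix.one_apply]
      split_ifs <;> simp
    have hGMG : Gs * (H * Cm) * G = H.det • Matrix.of q := by
      rw [hmat]
      ext1 i j
      rw [Matrix.of_apply, hq, Matrix.smul_apply, Matrix.of_apply, smul_eq_mul]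
    have hGdet : G.det ≠ 0 := by
      intro h
      have h1 := congrArg Matrix.det hGHG
      rw [Matrix.det_mul, h, mul_zero, Matrix.det_smul, Matrix.det_one, mul_one] at h1
      exact pow_ne_zero _ hH0 h1.symm
    have hcomm := scalar_inverse_comm hGdet hGHG
    refine charpoly_eq_of_intertwine hGdet ?_
    have h1 : H.det • (Cm * G) = H.det • (G * Matrix.of q) := by
      calc H.det • (Cm * G) = (H.det • (1 : Matrix (Fin n) (Fin n) ℝ[X])) * (Cm * G) := by
            rw [Matrix.smul_mul, Matrix.one_mul]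
        _ = G * (Gs * H) * (Cm * G) := by rw [hcomm]
        _ = G * (Gs * (H * Cm) * G) := by simp only [Matrix.mul_assoc]
        _ = _ := by rw [hGMG, Matrix.mul_smul]
    ext1 i j
    have h2 := congrFun (congrFun h1 i) j
    rw [Matrix.smul_apply, Matrix.smul_apply, smul_eq_mul, smul_eq_mul] at h2
    exact mul_left_cancel₀ hH0 h2

end Pool.Agent.H4.SkewDet
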