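import Pool.Agent.H4.SkewDet.Weight

namespace Pool.Agent.H4.SkewDet

open Polynomial Matrix

variable {n : ℕ}

/-- Evaluation of a real polynomial at the purely imaginary point `τ * I`. -/
noncomputable def ev (τ : ℝ) : ℝ[X] →+* ℂ := eval₂RingHom (algebraMap ℝ ℂ) ((τ : ℂ) * Complex.I)

lemma ev_X (τ : ℝ) : ev τ X = (τ : ℂ) * Complex.I := by simp [ev]

lemma ev_C (τ : ℝ) (c : ℝ) : ev τ (C c) = (c : ℂ) := by simp [ev]

lemma ev_apply (τ : ℝ) (f : ℝ[X]) :
    ev τ f = (f.map (algebraMap ℝ ℂ)).eval ((τ : ℂ) * Complex.I) := by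
  simp [ev, eval_map]

lemma ev_zero (f : ℝ[X]) : ev 0 f = ((f.eval 0 : ℝ) : ℂ) := by
  have : ((0 : ℝ) : ℂ) * Complex.I = (algebraMap ℝ ℂ) 0 := by simp
  rw [ev_apply, this, eval_map, eval₂_at_apply]
  rfl

lemma ev_ext {f g : ℝ[X]} (h : ∀ τ, ev τ f = ev τ g) : f = g := by
  have hinj : Function.Injective (algebraMap ℝ ℂ) := (algebraMap ℝ ℂ).injective
  apply Polynomial.map_injective _ hinj
  apply Polynomial.eq_of_infinite_eval_eq
  refine Set.Infinite.mono (s := Set.range fun τ : ℝ => (τ : ℂ) * Complex.I) ?_ ?_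
  · rintro _ ⟨τ, rfl⟩
    have := h τ
    rwa [ev_apply, ev_apply] at this
  · refine Set.infinite_range_of_injective ?_
    intro a b hab
    have := mul_right_cancel₀ Complex.I_ne_zero hab
    exact_mod_cast this

lemma ev_ext_matrix {m l : Type*} {M N : Matrix m l ℝ[X]}
    (h : ∀ τ, M.map (ev τ) = N.map (ev τ)) : M = N := by
  ext1 i j
  refine ev_ext fun τ => ?_
  have := congrFun (congrFun (h τ) i) j
  simpa using this

/-- conjugation formula -/
lemma ev_comp_neg (τ : ℝ) (f : ℝ[X]) : ev τ (f.comp (-X)) = (starRingEnd ℂ) (ev τ f) := by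
  have h1 : (starRingEnd ℂ).comp (ev τ) = (ev τ).comp (compRingHom (-X)) := by
    apply Polynomial.ringHom_ext
    · intro a
      simp [ev_C]
    · simp [ev_X]
  have := RingHom.congr_fun h1 f
  simp only [RingHom.comp_apply, coe_compRingHom] at this
  rw [this]

lemma ev_real_of_even {f : ℝ[X]} (hf : f.comp (-X) = f) (τ : ℝ) :
    (starRingEnd ℂ) (ev τ f) = ev τ f := by
  rw [← ev_comp_neg, hf]

/-- A monic polynomial with `n` distinct roots is the product. -/
lemma monic_eq_prod {K : Type*} [Field K] (b : ℕ → K) (r : Fin n → K)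
    (hr : Function.Injective r)
    (h : ∀ k, ∑ i : Fin n, b i * r k ^ (i : ℕ) + r k ^ n = 0) :
    X ^ n + ∑ i : Fin n, C (b i) * X ^ (i : ℕ) = ∏ k, (X - C (r k)) := by
  have hdeg : (∑ i : Fin n, C (b i) * X ^ (i : ℕ) : K[X]).degree < n := by
    refine (degree_sum_le _ _).trans_lt ?_
    rw [Finset.sup_lt_iff (by exact WithBot.bot_lt_coe n)]
    intro i _
    refine (degree_C_mul_X_pow_le _ _).trans_lt ?_
    exact_mod_cast i.2
  have hmon : (X ^ n + ∑ i : Fin n, C (b i) * X ^ (i : ℕ) : K[X]).Monic :=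
    monic_X_pow_add hdeg
  have hd1 : (X ^ n + ∑ i : Fin n, C (b i) * X ^ (i : ℕ) : K[X]).degree = (n : WithBot ℕ) := by
    rw [degree_add_eq_left_of_degree_lt (by rwa [degree_X_pow]), degree_X_pow]
  have hmon2 : (∏ k, (X - C (r k))).Monic := monic_prod_of_monic _ _ fun k _ => monic_X_sub_C _
  have hd2 : (∏ k, (X - C (r k))).degree = (n : WithBot ℕ) := by
    rw [degree_prod]
    simp
  rw [← sub_eq_zero]
  refine eq_zero_of_degree_lt_of_eval_index_eq_zero (s := Finset.univ) (v := r) hr.injOn ?_ ?_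
  · rw [Finset.card_univ, Fintype.card_fin]
    calc _ < (X ^ n + ∑ i : Fin n, C (b i) * X ^ (i : ℕ) : K[X]).degree := by
          apply degree_sub_lt
          · rw [hd1, hd2]
          · exact hmon.ne_zero
          · rw [hmon.leadingCoeff, hmon2.leadingCoeff]
      _ = n := hd1
  · intro k _
    rw [eval_sub, eval_prod]
    have h1 : ∏ j, eval (r k) (X - C (r j)) = 0 :=
      Finset.prod_eq_zero (Finset.mem_univ k) (by simp)
    rw [h1, sub_zero]
    have := h k
    simp only [eval_add, eval_pow, eval_X, eval_finset_sum, eval_mul, eval_C]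
    rw [add_comm]
    exact this

end Pool.Agent.H4.SkewDet
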