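import Pool.Agent.H4.SkewDet.Eval

namespace Pool.Agent.H4.SkewDet

open Polynomial

lemma ev_eq_aeval (τ : ℝ) (f : ℝ[X]) : ev τ f = aeval ((τ : ℂ) * Complex.I) f := rfl

lemma comp_neg_comp_neg (f : ℝ[X]) : (f.comp (-X)).comp (-X) = f := by
  rw [comp_assoc]; simp

lemma aeval_comp_neg (f : ℝ[X]) (z : ℂ) : aeval z (f.comp (-X)) = aeval (-z) f := by
  rw [aeval_comp]; simp

/-- Roots of `f` all lie in the open left half-plane. -/
def Hw (f : ℝ[X]) : Prop := ∀ z : ℂ, aeval z f = 0 → z.re < 0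

lemma Hw.coprime {f : ℝ[X]} (h : Hw f) : IsCoprime f (f.comp (-X)) := by
  rw [Polynomial.isCoprime_iff_aeval_ne_zero_of_isAlgClosed (k := ℝ) ℂ]
  intro z
  by_contra hz
  push Not at hz
  have h1 := h z hz.1
  have h2 := hz.2
  rw [aeval_comp_neg] at h2
  have h3 := h _ h2
  simp at h3
  linarith

lemma exists_hw_factor (δ : ℝ[X]) (hdeg : 0 < δ.natDegree) (heven : δ.comp (-X) = δ)
    (hne : ∀ τ, ev τ δ ≠ 0) : ∃ π : ℝ[X], Hw π ∧ π ∣ δ ∧ 0 < π.natDegree := by
  obtain ⟨w, hw⟩ : ∃ w : ℂ, aeval w δ = 0 :=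
    IsAlgClosed.exists_aeval_eq_zero _ δ (natDegree_pos_iff_degree_pos.mp hdeg).ne'
  have hwre : w.re ≠ 0 := by
    intro h0
    apply hne w.im
    rw [ev_eq_aeval]
    have : (w.im : ℂ) * Complex.I = w := by
      apply Complex.ext <;> simp [h0]
    rw [this, hw]
  obtain ⟨z, hz, hzre⟩ : ∃ z : ℂ, aeval z δ = 0 ∧ z.re < 0 := by
    rcases lt_or_gt_of_ne hwre with h | h
    · exact ⟨w, hw, h⟩
    · refine ⟨-w, ?_, by simpa using h⟩
      rw [← aeval_comp_neg, heven, hw]
  by_cases hzim : z.im = 0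
  · refine ⟨X - C z.re, ?_, ?_, by simp⟩
    · intro u hu
      simp only [map_sub, aeval_X, aeval_C, sub_eq_zero] at hu
      rw [hu]
      simpa using hzre
    · rw [dvd_iff_isRoot, IsRoot]
      have h1 : z = ((z.re : ℝ) : ℂ) := by apply Complex.ext <;> simp [hzim]
      rw [h1] at hz
      have h2 : aeval ((z.re : ℝ) : ℂ) δ = ((δ.eval z.re : ℝ) : ℂ) :=
        Polynomial.aeval_algebraMap_apply_eq_algebraMap_eval z.re δ
      rw [h2] at hz
      exact_mod_cast hz
  · refine ⟨X ^ 2 - C (2 * z.re) * X + C (‖z‖ ^ 2), ?_,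
      quadratic_dvd_of_aeval_eq_zero_im_ne_zero δ hz hzim, ?_⟩
    · intro u hu
      have h1 : (u - z) * (u - (starRingEnd ℂ) z) = 0 := by
        have h2 : (aeval u) (X ^ 2 - C (2 * z.re) * X + C (‖z‖ ^ 2) : ℝ[X]) =
            u ^ 2 - (2 * z.re : ℝ) * u + ((‖z‖ ^ 2 : ℝ) : ℂ) := by
          simp
        rw [h2] at hu
        rw [← hu]
        have h3 : z + (starRingEnd ℂ) z = ((2 * z.re : ℝ) : ℂ) := Complex.add_conj z
        have h4 : z * (starRingEnd ℂ) z = ((‖z‖ ^ 2 : ℝ) : ℂ) := by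
          rw [Complex.mul_conj, Complex.normSq_eq_norm_sq]
        rw [← h3, ← h4]
        ring
      rcases mul_eq_zero.mp h1 with h | h
      · rw [sub_eq_zero.mp h]; exact hzre
      · rw [sub_eq_zero.mp h]; simpa using hzre
    · have : (X ^ 2 - C (2 * z.re) * X + C (‖z‖ ^ 2) : ℝ[X]).natDegree = 2 := by
        compute_degree!
      rw [this]
      norm_num

lemma exists_factor (N : ℕ) : ∀ δ : ℝ[X], δ.natDegree ≤ N → δ.comp (-X) = δ →
    (∀ τ, ev τ δ ≠ 0) →
    ∃ (c : ℝ) (d : ℝ[X]), δ = C c * (d * d.comp (-X)) ∧ Hw d := by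
  induction N with
  | zero =>
    intro δ hδ _ _
    refine ⟨δ.coeff 0, 1, ?_, ?_⟩
    · rw [one_comp, mul_one, mul_one]
      exact eq_C_of_natDegree_le_zero hδ
    · intro z hz
      simp at hz
  | succ N ih =>
    intro δ hδ heven hne
    by_cases h0 : δ.natDegree = 0
    · exact ih δ (by omega) heven hne
    have hδ0 : δ ≠ 0 := by
      rintro rfl
      simp at h0
    obtain ⟨π, hπ, hdvd, hpos⟩ := exists_hw_factor δ (Nat.pos_of_ne_zero h0) heven hne
    have hdvd2 : π.comp (-X) ∣ δ := by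
      obtain ⟨k, hk⟩ := hdvd
      refine ⟨k.comp (-X), ?_⟩
      rw [← mul_comp, ← hk, heven]
    obtain ⟨δ', hδ'⟩ := hπ.coprime.mul_dvd hdvd hdvd2
    have hππ : π * π.comp (-X) ≠ 0 := by
      intro h
      rw [h, zero_mul] at hδ'
      exact hδ0 hδ'
    have heven' : δ'.comp (-X) = δ' := by
      have h1 : (π * π.comp (-X)) * δ'.comp (-X) = (π * π.comp (-X)) * δ' := by
        conv_rhs => rw [← hδ', ← heven, hδ', mul_comp, mul_comp, comp_neg_comp_neg]
        ring
      exact mul_left_cancel₀ hππ h1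
    have hne' : ∀ τ, ev τ δ' ≠ 0 := by
      intro τ h
      apply hne τ
      rw [hδ', map_mul, h, mul_zero]
    have hδ'0 : δ' ≠ 0 := by
      rintro rfl
      rw [mul_zero] at hδ'
      exact hδ0 hδ'
    have hdeg' : δ'.natDegree ≤ N := by
      have h1 : δ.natDegree = (π * π.comp (-X)).natDegree + δ'.natDegree := by
        conv_lhs => rw [hδ']
        rw [natDegree_mul hππ hδ'0]
      have h2 : (π * π.comp (-X)).natDegree = π.natDegree + (π.comp (-X)).natDegree :=
        natDegree_mul (left_ne_zero_of_mul hππ) (right_ne_zero_of_mul hππ)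
      omega
    obtain ⟨c, d, hd, hHw⟩ := ih δ' hdeg' heven' hne'
    refine ⟨c, π * d, ?_, ?_⟩
    · rw [hδ', hd, mul_comp]
      ring
    · intro z hz
      rw [map_mul] at hz
      rcases mul_eq_zero.mp hz with h | h
      · exact hπ z h
      · exact hHw z h

lemma natDegree_comp_neg (d : ℝ[X]) : (d.comp (-X)).natDegree = d.natDegree := by
  rw [natDegree_comp, natDegree_neg, natDegree_X, mul_one]

end Pool.Agent.H4.SkewDet
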