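import Mathlib

namespace Pool.Agent.H4.SkewDet

open Polynomial

/-- Laguerre inequality for products of real linear factors. -/
lemma laguerre_prod (s : Multiset ℝ) (x : ℝ) :
    let P := (s.map fun a => X - C a).prod
    0 ≤ (derivative P).eval x ^ 2 - P.eval x * (derivative (derivative P)).eval x ∧
    (s ≠ 0 → P.eval x ≠ 0 →
      0 < (derivative P).eval x ^ 2 - P.eval x * (derivative (derivative P)).eval x) := by
  induction s using Multiset.induction_on with
  | empty => simp
  | cons a s ih =>
    simp only [Multiset.map_cons, Multiset.prod_cons]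
    set P := (s.map fun a => X - C a).prod with hP
    obtain ⟨ih1, -⟩ := ih
    have hd1 : derivative ((X - C a) * P) = P + (X - C a) * derivative P := by
      simp [derivative_mul]
    have hd2 : derivative (derivative ((X - C a) * P)) =
        2 * derivative P + (X - C a) * derivative (derivative P) := by
      rw [hd1]
      simp [derivative_mul]
      ring
    rw [hd2, hd1]
    have key : (eval x (P + (X - C a) * derivative P)) ^ 2 -
        eval x ((X - C a) * P) * eval x (2 * derivative P + (X - C a) * derivative (derivative P))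
        = (P.eval x) ^ 2 + (x - a) ^ 2 *
          ((derivative P).eval x ^ 2 - P.eval x * (derivative (derivative P)).eval x) := by
      simp
      ring
    rw [key]
    constructor
    · have := mul_nonneg (sq_nonneg (x - a)) ih1
      positivity
    · intro _ hne
      have hPx : P.eval x ≠ 0 := by
        intro h
        apply hne
        rw [eval_mul, h, mul_zero]
      have := mul_nonneg (sq_nonneg (x - a)) ih1
      have h2 : 0 < (P.eval x) ^ 2 := by positivity
      linarith

lemma laguerre {F : ℝ[X]} (hF : F.Splits) (hdeg : 0 < F.natDegree) {x : ℝ} (hx : F.eval x ≠ 0) :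
    0 < (derivative F).eval x ^ 2 - F.eval x * (derivative (derivative F)).eval x := by
  have h1 := hF.eq_prod_roots
  have hlc : F.leadingCoeff ≠ 0 := by
    intro h
    rw [leadingCoeff_eq_zero] at h
    rw [h] at hdeg
    simp at hdeg
  have hr : F.roots ≠ 0 := hF.roots_ne_zero hdeg.ne'
  set P := (F.roots.map fun a => X - C a).prod with hP
  have hPx : P.eval x ≠ 0 := by
    intro h
    apply hx
    rw [h1, eval_mul, h, mul_zero]
  have h2 := (laguerre_prod F.roots x).2 hr hPx
  simp only [← hP] at h2
  rw [h1]
  simp only [derivative_mul, derivative_C, zero_mul, zero_add, eval_mul, eval_C]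
  have h3 : 0 < F.leadingCoeff ^ 2 := by positivity
  have := mul_pos h3 h2
  linarith [this]

lemma splits_of_real_roots {G : ℝ[X]} (h : ∀ z : ℂ, (G.map (algebraMap ℝ ℂ)).eval z = 0 → z.im = 0)
    : G.Splits := by
  refine Splits.of_splits_map (algebraMap ℝ ℂ) (IsAlgClosed.splits _) ?_
  intro z hz
  have hz' : (G.map (algebraMap ℝ ℂ)).eval z = 0 := by
    by_cases h0 : G.map (algebraMap ℝ ℂ) = 0
    · rw [h0]; simp
    · exact (mem_roots h0).mp hz
  refine ⟨z.re, ?_⟩
  apply Complex.ext
  · simp
  · simp [h z hz']

lemma splits_add_deriv {F : ℝ[X]} (hF : F.Splits) (hF0 : F ≠ 0) (b : ℝ) :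
    (F + C b * derivative F).Splits := by
  apply splits_of_real_roots
  intro z hz
  by_contra him
  set φ := algebraMap ℝ ℂ with hφ
  set Fc := F.map φ with hFc
  have hFcs : Fc.Splits := hF.map φ
  have hroots : Fc.roots = F.roots.map φ := hF.roots_map φ
  have hFz : Fc.eval z ≠ 0 := by
    intro h
    have h0 : Fc ≠ 0 := (Polynomial.map_ne_zero_iff φ.injective).mpr hF0
    have h1 : z ∈ Fc.roots := (mem_roots h0).mpr h
    rw [hroots, Multiset.mem_map] at h1
    obtain ⟨a, -, ha⟩ := h1
    apply him
    rw [← ha]
    simp [hφ]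
  have h1 := hFcs.eval_derivative_eq_eval_mul_sum hFz
  have h2 : Fc.eval z + b * (derivative Fc).eval z = 0 := by
    have : (F + C b * derivative F).map φ = Fc + C (b : ℂ) * derivative Fc := by
      rw [Polynomial.map_add, Polynomial.map_mul, map_C, hFc, derivative_map]
      rfl
    rw [this] at hz
    simpa using hz
  rw [h1] at h2
  have h3 : 1 + (b : ℂ) * (Fc.roots.map fun w => 1 / (z - w)).sum = 0 := by
    have : Fc.eval z * (1 + (b : ℂ) * (Fc.roots.map fun w => 1 / (z - w)).sum) = 0 := by
      rw [← h2]; ring
    exact (mul_eq_zero.mp this).resolve_left hFz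
  rw [hroots, Multiset.map_map] at h3
  have h4 := congrArg Complex.im h3
  simp only [Complex.add_im, Complex.one_im, Complex.mul_im, Complex.ofReal_re,
    Complex.ofReal_im, zero_mul, add_zero, zero_add, Complex.zero_im] at h4
  by_cases hb : b = 0
  · rw [hb] at h3
    simp at h3
  have h5 := (mul_eq_zero.mp h4).resolve_left hb
  have h6 : (Multiset.map ((fun w => 1 / (z - w)) ∘ φ) F.roots).sum.im =
      (Multiset.map (fun a : ℝ => - z.im / Complex.normSq (z - a)) F.roots).sum := by
    have : ∀ s : Multiset ℝ, (Multiset.map ((fun w => 1 / (z - w)) ∘ φ) s).sum.im =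
      (Multiset.map (fun a : ℝ => - z.im / Complex.normSq (z - a)) s).sum := by
      intro s
      induction s using Multiset.induction_on with
      | empty => simp
      | cons a s ih =>
        rw [Multiset.map_cons, Multiset.sum_cons, Complex.add_im, ih, Multiset.map_cons,
          Multiset.sum_cons]
        congr 1
        simp [hφ, Complex.inv_im]
    exact this F.roots
  rw [h6] at h5
  -- if there is a root, the sum is nonzero
  by_cases hr : F.roots = 0
  · rw [hr] at h3
    simp at h3
  have h7 : ∀ s : Multiset ℝ, s ≠ 0 →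
      (Multiset.map (fun a : ℝ => - z.im / Complex.normSq (z - a)) s).sum =
        - z.im * (Multiset.map (fun a : ℝ => 1 / Complex.normSq (z - a)) s).sum ∧
      0 < (Multiset.map (fun a : ℝ => 1 / Complex.normSq (z - a)) s).sum := by
    intro s hs
    constructor
    · rw [← Multiset.sum_map_mul_left]
      congr 1
      refine Multiset.map_congr rfl fun a _ => ?_
      ring
    · obtain ⟨a, ha⟩ := Multiset.exists_mem_of_ne_zero hs
      obtain ⟨t, rfl⟩ := Multiset.exists_cons_of_mem ha
      rw [Multiset.map_cons, Multiset.sum_cons]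
      have hpos : ∀ a : ℝ, 0 < 1 / Complex.normSq (z - a) := by
        intro a
        apply one_div_pos.mpr
        rw [Complex.normSq_pos]
        intro h0
        apply him
        have := congrArg Complex.im h0
        simpa using this
      have : 0 ≤ (Multiset.map (fun a : ℝ => 1 / Complex.normSq (z - a)) t).sum := by
        apply Multiset.sum_nonneg
        intro y hy
        rw [Multiset.mem_map] at hy
        obtain ⟨c, -, rfl⟩ := hy
        exact (hpos c).le
      linarith [hpos a]
  obtain ⟨h8, h9⟩ := h7 F.roots hr
  rw [h8] at h5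
  rcases mul_eq_zero.mp h5 with h | h
  · exact him (neg_eq_zero.mp h)
  · exact h9.ne' h

lemma add_deriv_ne_zero {F : ℝ[X]} (hF0 : F ≠ 0) (b : ℝ) : F + C b * derivative F ≠ 0 := by
  intro h
  have h1 : (C b * derivative F).degree < F.degree := by
    by_cases hb : b = 0
    · rw [hb, C_0, zero_mul, degree_zero]
      exact bot_lt_iff_ne_bot.mpr (degree_ne_bot.mpr hF0)
    · rw [degree_C_mul hb]
      exact degree_derivative_lt hF0
  have h2 := degree_add_eq_left_of_degree_lt h1
  rw [h, degree_zero] at h2
  exact hF0 (degree_eq_bot.mp h2.symm)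

lemma mult_drop {F : ℝ[X]} (hF : F.Splits) (hF0 : F ≠ 0) {b : ℝ} (hb : b ≠ 0) {m : ℕ}
    (hm : 1 ≤ m) (h : ∀ x, rootMultiplicity x F ≤ m + 1) (x : ℝ) :
    rootMultiplicity x (F + C b * derivative F) ≤ m := by
  have hG0 := add_deriv_ne_zero hF0 b
  by_cases hx : F.eval x = 0
  · -- a root of `F`
    have hroot : F.IsRoot x := hx
    have h1 := derivative_rootMultiplicity_of_root hroot
    have hk : 0 < rootMultiplicity x F := (rootMultiplicity_pos hF0).mpr hroot
    have hF'0 : derivative F ≠ 0 := by
      intro h0
      have h2 : F.natDegree = 0 := derivative_eq_zero.mp h0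
      have h3 := eq_C_of_natDegree_eq_zero h2
      rw [h3] at hx
      simp at hx
      rw [hx] at h3
      simp at h3
      exact hF0 h3
    by_contra hcon
    push Not at hcon
    have h2 : rootMultiplicity x F ≤ rootMultiplicity x (F + C b * derivative F) := by
      have := h x
      omega
    have h3 : (X - C x) ^ (rootMultiplicity x F) ∣ F + C b * derivative F :=
      (le_rootMultiplicity_iff hG0).mp h2
    have h4 : (X - C x) ^ (rootMultiplicity x F) ∣ F := pow_rootMultiplicity_dvd F x
    have h5 : (X - C x) ^ (rootMultiplicity x F) ∣ C b * derivative F := by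
      have := dvd_sub h3 h4
      rwa [add_sub_cancel_left] at this
    have h6 : (X - C x) ^ (rootMultiplicity x F) ∣ derivative F := by
      have hu : IsUnit (C b : ℝ[X]) := isUnit_C.mpr (isUnit_iff_ne_zero.mpr hb)
      exact (IsUnit.dvd_mul_left hu).mp h5
    have h7 := (le_rootMultiplicity_iff hF'0).mpr h6
    omega
  · by_contra hcon
    push Not at hcon
    have h1 : 1 < rootMultiplicity x (F + C b * derivative F) := by omega
    rw [one_lt_rootMultiplicity_iff_isRoot hG0] at h1
    obtain ⟨h2, h3⟩ := h1
    have h2' : F.eval x + b * (derivative F).eval x = 0 := by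
      have : (F + C b * derivative F).eval x = 0 := h2
      simpa using this
    have h3' : (derivative F).eval x + b * (derivative (derivative F)).eval x = 0 := by
      have : (derivative (F + C b * derivative F)).eval x = 0 := h3
      simpa [derivative_mul] using this
    by_cases hdeg : F.natDegree = 0
    · have h4 : derivative F = 0 := by
        rw [eq_C_of_natDegree_eq_zero hdeg]; simp
      rw [h4] at h2'
      simp at h2'
      exact hx h2'
    · have h4 := laguerre hF (Nat.pos_of_ne_zero hdeg) hx
      have h5 : F.eval x = - (b * (derivative F).eval x) := by linarith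
      rw [h5] at h4
      have h6 : (derivative F).eval x ^ 2 -
          -(b * (derivative F).eval x) * (derivative (derivative F)).eval x =
          (derivative F).eval x * ((derivative F).eval x + b * (derivative (derivative F)).eval x)
          := by ring
      rw [h6, h3', mul_zero] at h4
      exact lt_irrefl _ h4

/-- the operator `1 - c ∂²` -/
noncomputable def op {R : Type*} [CommRing R] (c : R) (F : R[X]) : R[X] :=
  F - C c * derivative (derivative F)

lemma op_eq (b : ℝ) (F : ℝ[X]) :
    op (b ^ 2) F = (F + C (-b) * derivative F) + C b * derivative (F + C (-b) * derivative F) := by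
  simp only [op, derivative_add, derivative_mul, derivative_C, zero_mul, zero_add, C_neg,
    derivative_neg, neg_zero, C_pow]
  ring

lemma op_good {F : ℝ[X]} (hF : F.Splits) (hF0 : F ≠ 0) {c : ℝ} (hc : 0 < c) {m : ℕ}
    (hm : 1 ≤ m) (h : ∀ x, rootMultiplicity x F ≤ m + 1) :
    (op c F).Splits ∧ op c F ≠ 0 ∧ ∀ x, rootMultiplicity x (op c F) ≤ m := by
  set b := Real.sqrt c with hb
  have hb0 : 0 < b := Real.sqrt_pos.mpr hc
  have hbc : b ^ 2 = c := Real.sq_sqrt hc.le
  rw [← hbc, op_eq]
  have h1 := splits_add_deriv hF hF0 (-b)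
  have h2 := add_deriv_ne_zero hF0 (-b)
  have h3 := mult_drop hF hF0 (neg_ne_zero.mpr hb0.ne') hm h
  refine ⟨splits_add_deriv h1 h2 b, add_deriv_ne_zero h2 b, ?_⟩
  exact mult_drop h1 h2 hb0.ne' hm fun x => (h3 x).trans (Nat.le_succ m)

lemma op_iterate_good {F : ℝ[X]} (hF : F.Splits) (hF0 : F ≠ 0) {c : ℝ} (hc : 0 < c) (k : ℕ) :
    ((op c)^[k] F).Splits ∧ (op c)^[k] F ≠ 0 ∧
      ∀ x, rootMultiplicity x ((op c)^[k] F) ≤ max 1 (F.natDegree - k) := by
  induction k with
  | zero =>
    refine ⟨hF, hF0, fun x => ?_⟩
    refine le_max_of_le_right ?_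
    simp only [Function.iterate_zero, id, Nat.sub_zero]
    rw [← count_roots]
    exact (Multiset.count_le_card _ _).trans (card_roots' F)
  | succ k ih =>
    obtain ⟨h1, h2, h3⟩ := ih
    rw [Function.iterate_succ_apply']
    refine op_good h1 h2 hc (le_max_left _ _) fun x => (h3 x).trans ?_
    omega

end Pool.Agent.H4.SkewDet
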