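import Pool.Agent.H4.SkewDet.Strict
import Pool.Agent.H4.SkewDet.Perturb

namespace Pool.Agent.H4.SkewDet

open Polynomial Matrix

/-- top polynomial (the polynomial at infinity) -/
noncomputable def tp (n : ℕ) (q : ℝ[X][X]) : ℂ[X] :=
  ∑ k ∈ Finset.range (n + 1),
    C ((((q.coeff k).coeff (n - k) : ℝ) : ℂ) * Complex.I ^ (n - k)) * X ^ k

/-- the perturbation operator -/
noncomputable def Opp (ε : ℝ) (q : ℝ[X][X]) : ℝ[X][X] := op (C ε * (1 - X ^ 2)) q

/-- The algebraic conditions. -/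
structure Good0 (n : ℕ) (q : ℝ[X][X]) : Prop where
  monic : q.Monic
  natDegree : q.natDegree = n
  deg : ∀ k e, n < k + e → (q.coeff k).coeff e = 0
  even : ∀ k, (q.coeff k).comp (-X) = q.coeff k

lemma op_map {R S : Type*} [CommRing R] [CommRing S] (φ : R →+* S) (c : R) (F : R[X]) :
    (op c F).map φ = op (φ c) (F.map φ) := by
  simp [op, derivative_map]

lemma op_iterate_map {R S : Type*} [CommRing R] [CommRing S] (φ : R →+* S) (c : R) (F : R[X])
    (k : ℕ) : ((op c)^[k] F).map φ = (op (φ c))^[k] (F.map φ) := by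
  induction k with
  | zero => rfl
  | succ k ih => rw [Function.iterate_succ_apply', op_map, ih, Function.iterate_succ_apply']

lemma coeff_op {R : Type*} [CommRing R] (c : R) (F : R[X]) (k : ℕ) :
    (op c F).coeff k = F.coeff k - c * (F.coeff (k + 2) * (((k + 2) * (k + 1) : ℕ) : R)) := by
  simp only [op, coeff_sub, coeff_C_mul, coeff_derivative]
  push_cast
  ring

lemma coeff_factor (ε : ℝ) (f : ℝ[X]) (m e : ℕ) :
    ((C ε * (1 - X ^ 2)) * (f * (m : ℝ[X]))).coeff e =
      ε * m * (f.coeff e - if 2 ≤ e then f.coeff (e - 2) else 0) := by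
  have : (C ε * (1 - X ^ 2)) * (f * (m : ℝ[X])) = C (ε * m) * (f - X ^ 2 * f) := by
    rw [C_mul, C_eq_natCast]
    ring
  rw [this, coeff_C_mul, coeff_sub, coeff_X_pow_mul']

lemma degree_aux {R : Type*} [CommRing R] (c : R) {F : R[X]} (hF : F.Monic) :
    (C c * derivative (derivative F)).degree < F.degree ∨ F = 1 := by
  by_cases hR : Nontrivial R
  · by_cases h0 : F.natDegree = 0
    · right
      have := eq_C_of_natDegree_eq_zero h0
      have h2 := hF
      rw [Monic, leadingCoeff, h0] at h2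
      rw [this, h2, C_1]
    · left
      have h3 : (derivative (derivative F)).natDegree < F.natDegree := by
        have h4 := natDegree_derivative_le F
        have h5 := natDegree_derivative_le (derivative F)
        omega
      have h6 : (C c * derivative (derivative F)).natDegree < F.natDegree :=
        (natDegree_C_mul_le _ _).trans_lt h3
      exact degree_lt_degree h6
  · right
    rw [not_nontrivial_iff_subsingleton] at hR
    exact Subsingleton.elim _ _

lemma op_monic {R : Type*} [CommRing R] (c : R) {F : R[X]} (hF : F.Monic) : (op c F).Monic := by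
  rcases degree_aux c hF with h | h
  · exact hF.sub_of_left h
  · rw [h]
    simp [op]

lemma op_natDegree {R : Type*} [CommRing R] (c : R) {F : R[X]} (hF : F.Monic) :
    (op c F).natDegree = F.natDegree := by
  rcases degree_aux c hF with h | h
  · exact natDegree_eq_of_degree_eq (degree_sub_eq_left_of_degree_lt h)
  · rw [h]
    simp [op]

lemma Good0.Opp {n : ℕ} {q : ℝ[X][X]} (h : Good0 n q) (ε : ℝ) : Good0 n (Opp ε q) := by
  refine ⟨op_monic _ h.monic, (op_natDegree _ h.monic).trans h.natDegree, ?_, ?_⟩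
  · intro k e he
    rw [SkewDet.Opp, coeff_op, coeff_sub, h.deg k e he, coeff_factor, h.deg (k + 2) e (by omega)]
    split_ifs with h2
    · rw [h.deg (k + 2) (e - 2) (by omega)]
      simp
    · simp
  · intro k
    rw [SkewDet.Opp, coeff_op]
    simp only [sub_comp, mul_comp, h.even]
    simp

lemma Good0.iterate {n : ℕ} {q : ℝ[X][X]} (h : Good0 n q) (ε : ℝ) (k : ℕ) :
    Good0 n ((SkewDet.Opp ε)^[k] q) := by
  induction k with
  | zero => exact h
  | succ k ih => rw [Function.iterate_succ_apply']; exact ih.Opp ε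

lemma ev_factor (τ ε : ℝ) : ev τ (C ε * (1 - X ^ 2)) = ((ε * (1 + τ ^ 2) : ℝ) : ℂ) := by
  rw [map_mul, map_sub, map_one, map_pow, ev_X, ev_C, mul_pow, Complex.I_sq]
  push_cast
  ring

lemma Opp_iterate_map (ε τ : ℝ) (q : ℝ[X][X]) (k : ℕ) :
    ((Opp ε)^[k] q).map (ev τ) = (op ((ε * (1 + τ ^ 2) : ℝ) : ℂ))^[k] (q.map (ev τ)) := by
  have : (Opp ε) = op (C ε * (1 - X ^ 2)) := rfl
  rw [this, op_iterate_map, ev_factor]

lemma coeff_tp {n : ℕ} {q : ℝ[X][X]} (h : Good0 n q) (k : ℕ) :
    (tp n q).coeff k = (((q.coeff k).coeff (n - k) : ℝ) : ℂ) * Complex.I ^ (n - k) := by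
  rw [tp, finsetSum_coeff]
  simp only [coeff_C_mul, coeff_X_pow]
  rw [Finset.sum_eq_single k]
  · simp
  · intro j _ hj
    rw [if_neg hj.symm, mul_zero]
  · intro hk
    have : n < k := by simpa using hk
    rw [h.deg k (n - k) (by omega)]
    simp

lemma tp_Opp {n : ℕ} {q : ℝ[X][X]} (h : Good0 n q) (ε : ℝ) :
    tp n (Opp ε q) = op (ε : ℂ) (tp n q) := by
  ext k
  rw [coeff_tp (h.Opp ε), coeff_op, coeff_tp h, coeff_tp h, Opp, coeff_op, coeff_sub, coeff_factor]
  by_cases hk : k + 2 ≤ n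
  · rw [if_pos (by omega : 2 ≤ n - k), h.deg (k + 2) (n - k) (by omega),
      (by omega : n - (k + 2) = n - k - 2)]
    obtain ⟨m, hm⟩ : ∃ m, n - k = m + 2 := ⟨n - k - 2, by omega⟩
    rw [hm]
    simp only [add_tsub_cancel_right, pow_add, Complex.I_sq]
    push_cast
    ring
  · have h1 : (q.coeff (k + 2)) = 0 := by
      ext e
      rw [h.deg (k + 2) e (by omega), coeff_zero]
    rw [h1]
    simp

lemma tp_Opp_iterate {n : ℕ} {q : ℝ[X][X]} (h : Good0 n q) (ε : ℝ) (k : ℕ) :
    tp n ((Opp ε)^[k] q) = (op (ε : ℂ))^[k] (tp n q) := by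
  induction k with
  | zero => rfl
  | succ k ih =>
    rw [Function.iterate_succ_apply', tp_Opp (h.iterate ε k), ih, Function.iterate_succ_apply']

/-- `f` is the complexification of a monic real polynomial of degree `n` with only real roots -/
def RR (n : ℕ) (f : ℂ[X]) : Prop :=
  ∃ F : ℝ[X], F.Splits ∧ F.Monic ∧ F.natDegree = n ∧ f = F.map (algebraMap ℝ ℂ)

lemma exists_roots {n : ℕ} {F : ℝ[X]} (hF : F.Splits) (hF0 : F ≠ 0) (hn : F.natDegree = n)
    (hm : ∀ x, rootMultiplicity x F ≤ 1) :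
    ∃ r : Fin n → ℝ, Function.Injective r ∧ ∀ k, F.eval (r k) = 0 := by
  have h1 : F.roots.Nodup := by
    rw [Multiset.nodup_iff_count_le_one]
    intro a
    rw [count_roots]
    exact hm a
  have h2 : F.roots.toFinset.card = n := by
    rw [Multiset.toFinset_card_of_nodup h1, ← hF.natDegree_eq_card_roots, hn]
  let e := (Finset.equivFinOfCardEq h2).symm
  refine ⟨fun k => (e k : ℝ), ?_, ?_⟩
  · intro a b hab
    exact e.injective (Subtype.ext hab)
  · intro k
    have h3 := (e k).2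
    rw [Multiset.mem_toFinset] at h3
    exact (mem_roots hF0).mp h3

lemma op_iterate_monic {R : Type*} [CommRing R] (c : R) {F : R[X]} (hF : F.Monic) (k : ℕ) :
    ((op c)^[k] F).Monic ∧ ((op c)^[k] F).natDegree = F.natDegree := by
  induction k with
  | zero => exact ⟨hF, rfl⟩
  | succ k ih =>
    rw [Function.iterate_succ_apply']
    exact ⟨op_monic _ ih.1, (op_natDegree _ ih.1).trans ih.2⟩

lemma RR.strict {n : ℕ} {f : ℂ[X]} (h : RR n f) {c : ℝ} (hc : 0 < c) :
    ∃ r : Fin n → ℝ, Function.Injective r ∧ ∀ k, ((op (c : ℂ))^[n] f).eval (r k : ℂ) = 0 := by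
  obtain ⟨F, hF, hFm, hFn, rfl⟩ := h
  obtain ⟨h1, h2, h3⟩ := op_iterate_good hF hFm.ne_zero hc n
  rw [hFn, Nat.sub_self] at h3
  obtain ⟨r, hr, hr0⟩ := exists_roots h1 h2 ((op_iterate_monic c hFm n).2.trans hFn)
    (fun x => by simpa using h3 x)
  refine ⟨r, hr, fun k => ?_⟩
  have h4 : (op (c : ℂ))^[n] (F.map (algebraMap ℝ ℂ)) = ((op c)^[n] F).map (algebraMap ℝ ℂ) := by
    rw [op_iterate_map]; rfl
  have h5 : ((r k : ℝ) : ℂ) = algebraMap ℝ ℂ (r k) := rfl
  rw [h4, h5, eval_map, eval₂_at_apply, hr0, map_zero]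

lemma eval_monic {R : Type*} [CommRing R] {n : ℕ} {f : R[X]} (hf : f.Monic)
    (hn : f.natDegree = n) (x : R) :
    f.eval x = ∑ i : Fin n, f.coeff i * x ^ (i : ℕ) + x ^ n := by
  have h1 : f.coeff n = 1 := by
    rw [← hn]; exact hf
  rw [eval_eq_sum_range, hn, Finset.sum_range_succ, h1, one_mul,
    Finset.sum_range (fun i => f.coeff i * x ^ i)]

lemma monic_expand {R : Type*} [CommRing R] {n : ℕ} {f : R[X]} (hf : f.Monic)
    (hn : f.natDegree = n) :
    f = X ^ n + ∑ i : Fin n, C (f.coeff i) * X ^ (i : ℕ) := by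
  have h1 : f.coeff n = 1 := by
    rw [← hn]; exact hf
  conv_lhs => rw [f.as_sum_range_C_mul_X_pow, hn, Finset.sum_range_succ, h1, C_1, one_mul,
    Finset.sum_range (fun i => C (f.coeff i) * X ^ i), add_comm]

/-- The perturbed polynomial has a determinantal representation. -/
theorem perturbed {n : ℕ} (hn : 0 < n) {q : ℝ[X][X]} (h : Good0 n q)
    (hreal : ∀ τ, RR n (q.map (ev τ))) (hinf : RR n (tp n q)) {ε : ℝ} (hε : 0 < ε) :
    ∃ A K : Matrix (Fin n) (Fin n) ℝ, Aᵀ = A ∧ Kᵀ = -K ∧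
      (A.map C + (X : ℝ[X]) • K.map C).charpoly = (Opp ε)^[n] q := by
  set Q := (Opp ε)^[n] q with hQ
  have hQg : Good0 n Q := h.iterate ε n
  obtain ⟨A, K, hA, hK, hAK⟩ := strict hn Q.coeff hQg.deg hQg.even (fun τ => by
    obtain ⟨r, hr, hr0⟩ := (hreal τ).strict (c := ε * (1 + τ ^ 2)) (by positivity)
    refine ⟨r, hr, fun k => ?_⟩
    have h1 := hr0 k
    rw [← Opp_iterate_map, ← hQ, eval_monic (hQg.monic.map _) (by
      rw [hQg.monic.natDegree_map, hQg.natDegree])] at h1
    simpa only [coeff_map] using h1) (by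
    obtain ⟨r, hr, hr0⟩ := hinf.strict (c := ε) hε
    rw [← tp_Opp_iterate h, ← hQ] at hr0
    -- rescale the roots by `-I`
    refine ⟨fun k => (r k : ℂ) * (-Complex.I), ?_, ?_⟩
    · intro a b hab
      have h1 := mul_right_cancel₀ (neg_ne_zero.mpr Complex.I_ne_zero) hab
      exact hr (Complex.ofReal_injective h1)
    · intro k
      have h1 := hr0 k
      have h2 : (tp n Q).eval (r k : ℂ) =
          ∑ i : Fin n, ((((Q.coeff i).coeff (n - i) : ℝ) : ℂ) * Complex.I ^ (n - i)) *
            (r k : ℂ) ^ (i : ℕ) + (r k : ℂ) ^ n := by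
        rw [tp, eval_finsetSum, Finset.sum_range_succ, Finset.sum_range
          (fun i => eval (r k : ℂ) (C ((((Q.coeff i).coeff (n - i) : ℝ) : ℂ) *
            Complex.I ^ (n - i)) * X ^ i))]
        simp only [eval_mul, eval_C, eval_pow, eval_X, Nat.sub_self, pow_zero, mul_one]
        congr 1
        have h3 : Q.coeff n = 1 := by
          rw [← hQg.natDegree]; exact hQg.monic
        rw [h3]
        simp
      rw [h2] at h1
      have h3 : (-Complex.I) ^ n * (∑ i : Fin n, ((((Q.coeff i).coeff (n - i) : ℝ) : ℂ) *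
          Complex.I ^ (n - i)) * (r k : ℂ) ^ (i : ℕ) + (r k : ℂ) ^ n) = 0 := by
        rw [h1, mul_zero]
      rw [← h3, mul_add, Finset.mul_sum]
      congr 1
      · refine Finset.sum_congr rfl fun i _ => ?_
        have h4 : (-Complex.I) ^ n = (-Complex.I) ^ (n - (i : ℕ)) * (-Complex.I) ^ (i : ℕ) := by
          rw [← pow_add]
          congr 1
          have := i.2
          omega
        have h5 : (-Complex.I) ^ (n - (i : ℕ)) * Complex.I ^ (n - (i : ℕ)) = 1 := by
          rw [← mul_pow]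
          simp
        rw [h4, mul_pow]
        calc _ = (((Q.coeff i).coeff (n - i) : ℝ) : ℂ) * ((r k : ℂ) ^ (i : ℕ) *
              (-Complex.I) ^ (i : ℕ)) * 1 := by ring
          _ = _ := by rw [← h5]; ring
      · rw [mul_pow]; ring)
  refine ⟨A, K, hA, hK, ?_⟩
  rw [hAK]
  exact (monic_expand hQg.monic hQg.natDegree).symm

end Pool.Agent.H4.SkewDet
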