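import Pool.Agent.H4.SkewDet.Array

namespace Pool.Agent.H4.SkewDet

open Polynomial Matrix Filter Topology

variable {n : ℕ} {c : ℕ → ℕ → ℂ}

lemma imPart_eval (g : ℂ[X]) (y : ℝ) : (imPart g).eval y = (g.eval (y : ℂ)).im := by
  have h1 : (imPart g).natDegree ≤ g.natDegree := imPart_natDegree g _ le_rfl
  rw [eval_eq_sum_range' (Nat.lt_succ_of_le h1), eval_eq_sum_range, Complex.im_sum]
  refine Finset.sum_congr rfl fun e _ => ?_
  rw [coeff_imPart, ← Complex.ofReal_pow, Complex.im_mul_ofReal]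

lemma im_zero_of_real {g : ℂ[X]} (h : ∀ y : ℝ, (g.eval (y : ℂ)).im = 0) (e : ℕ) :
    (g.coeff e).im = 0 := by
  have h1 : imPart g = 0 := by
    apply Polynomial.funext
    intro y
    rw [imPart_eval, h, eval_zero]
  rw [← coeff_imPart, h1, coeff_zero]

lemma arr_real (h : Arr n c) (hs : Stab n c) {a b : ℕ} (hab : a + b ≤ n) : (c a b).im = 0 := by
  set g : ℂ[X] := ∑ e ∈ Finset.range (n - a + 1), C (c a e) * X ^ e with hg
  have h1 : ∀ y : ℝ, (g.eval (y : ℂ)).im = 0 := by
    intro y
    have h2 : g.eval (y : ℂ) = cf n c y 1 a := by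
      rw [hg, eval_finsetSum, ← Finset.sum_range_reflect]
      refine Finset.sum_congr rfl fun m _ => ?_
      simp
    obtain ⟨F, -, -, -, hF⟩ := Pp_RR h hs y 1
    have h3 := Pp_coeff h (y : ℂ) ((1 : ℝ) : ℂ) a
    rw [hF, coeff_map, if_pos (by omega), Complex.ofReal_one] at h3
    rw [h2, ← h3]
    simp
  have h4 := im_zero_of_real h1 b
  have h5 : g.coeff b = c a b := by
    rw [hg, finsetSum_coeff]
    simp only [coeff_C_mul, coeff_X_pow]
    rw [Finset.sum_eq_single b]
    · simp
    · intro e _ he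
      rw [if_neg he.symm, mul_zero]
    · intro hb
      exact absurd (Finset.mem_range.mpr (by omega)) hb
  rwa [h5] at h4

/-- real coefficients -/
noncomputable def rho (n : ℕ) (c : ℕ → ℕ → ℂ) (a m : ℕ) : ℝ :=
  (c a (n - a - m) * (-Complex.I) ^ m).re

lemma rho_odd (h : Arr n c) {a m : ℕ} (ham : a + m ≤ n) (hm : m % 2 = 1) : rho n c a m = 0 := by
  rw [rho, h.par a m ham hm]
  simp

lemma rho_mul (h : Arr n c) (hs : Stab n c) {a m : ℕ} (ham : a + m ≤ n) :
    ((rho n c a m : ℝ) : ℂ) * Complex.I ^ m = c a (n - a - m) := by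
  rcases Nat.even_or_odd m with he | ho
  · obtain ⟨j, hj⟩ := he
    have h1 : (-Complex.I) ^ m = (((-1) ^ j : ℝ) : ℂ) := by
      rw [hj, ← two_mul, pow_mul, neg_sq, Complex.I_sq]
      push_cast
      rfl
    have h2 : Complex.I ^ m = (((-1) ^ j : ℝ) : ℂ) := by
      rw [hj, ← two_mul, pow_mul, Complex.I_sq]
      push_cast
      rfl
    have h3 := arr_real h hs (a := a) (b := n - a - m) (by omega)
    rw [rho, h1, h2, Complex.re_mul_ofReal, ← Complex.ofReal_mul]
    have h4 : (-1 : ℝ) ^ j * (-1) ^ j = 1 := by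
      rw [← mul_pow]
      simp
    rw [mul_assoc, h4, mul_one]
    apply Complex.ext
    · simp
    · simp [h3]
  · have ho' := Nat.odd_iff.mp ho
    rw [rho_odd h ham ho', h.par a m ham ho']
    simp

/-- coefficients as real polynomials in `s` -/
noncomputable def al (n : ℕ) (c : ℕ → ℕ → ℂ) (a : ℕ) : ℝ[X] :=
  ∑ m ∈ Finset.range (n - a + 1), C (rho n c a m) * X ^ m

lemma al_coeff (n : ℕ) (c : ℕ → ℕ → ℂ) (a e : ℕ) :
    (al n c a).coeff e = if e ≤ n - a then rho n c a e else 0 := by
  rw [al, finsetSum_coeff]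
  simp only [coeff_C_mul, coeff_X_pow]
  split_ifs with h
  · rw [Finset.sum_eq_single e]
    · simp
    · intro b _ hb
      rw [if_neg hb.symm, mul_zero]
    · intro hb
      exact absurd (Finset.mem_range.mpr (by omega)) hb
  · refine Finset.sum_eq_zero fun m hm => ?_
    have := Finset.mem_range.mp hm
    rw [if_neg (by omega), mul_zero]

/-- the polynomial `q(x, s)` -/
noncomputable def qq (n : ℕ) (c : ℕ → ℕ → ℂ) : ℝ[X][X] :=
  X ^ n + ∑ a : Fin n, C (al n c a) * X ^ (a : ℕ)

lemma qq_monic (n : ℕ) (c : ℕ → ℕ → ℂ) : (qq n c).Monic ∧ (qq n c).natDegree = n := by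
  have hdeg : (∑ i : Fin n, C (al n c i) * X ^ (i : ℕ) : ℝ[X][X]).degree < n := by
    refine (degree_sum_le _ _).trans_lt ?_
    rw [Finset.sup_lt_iff (by exact WithBot.bot_lt_coe n)]
    intro i _
    refine (degree_C_mul_X_pow_le _ _).trans_lt ?_
    exact_mod_cast i.2
  refine ⟨monic_X_pow_add hdeg, ?_⟩
  have hd1 : (qq n c).degree = (n : WithBot ℕ) := by
    rw [qq, degree_add_eq_left_of_degree_lt (by rwa [degree_X_pow]), degree_X_pow]
  exact natDegree_eq_of_degree_eq_some hd1

lemma qq_coeff (h : Arr n c) (a : ℕ) :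
    (qq n c).coeff a = if a ≤ n then al n c a else 0 := by
  rw [qq, coeff_add, coeff_X_pow, finsetSum_coeff]
  simp only [coeff_C_mul, coeff_X_pow]
  rcases lt_trichotomy a n with ha | ha | ha
  · rw [if_neg ha.ne, if_pos ha.le, zero_add, Finset.sum_eq_single (⟨a, ha⟩ : Fin n)]
    · simp
    · intro b _ hb
      rw [if_neg, mul_zero]
      intro h'
      exact hb (Fin.ext h'.symm)
    · intro h'
      exact absurd (Finset.mem_univ _) h'
  · subst ha
    rw [if_pos rfl, if_pos le_rfl, Finset.sum_eq_zero, add_zero]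
    · simp [al, rho, h.one]
    · intro i _
      have := i.2
      rw [if_neg (by omega), mul_zero]
  · rw [if_neg (by omega), if_neg (by omega), zero_add]
    refine Finset.sum_eq_zero fun i _ => ?_
    have := i.2
    rw [if_neg (by omega), mul_zero]

lemma qq_good (h : Arr n c) : Good0 n (qq n c) := by
  obtain ⟨h1, h2⟩ := qq_monic n c
  refine ⟨h1, h2, ?_, ?_⟩
  · intro k e hke
    rw [qq_coeff h]
    split_ifs with hk
    · rw [al_coeff, if_neg (by omega)]
    · simp
  · intro k
    rw [qq_coeff h]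
    split_ifs with hk
    · rw [al, comp_sum']
      refine Finset.sum_congr rfl fun m hm => ?_
      have hm' := Finset.mem_range.mp hm
      rcases Nat.even_or_odd m with he | ho
      · simp [he.neg_pow]
      · rw [rho_odd h (by omega) (Nat.odd_iff.mp ho)]
        simp
    · simp

lemma qq_map (h : Arr n c) (hs : Stab n c) (τ : ℝ) :
    (qq n c).map (ev τ) = Pp n c 1 τ := by
  ext a
  rw [coeff_map, qq_coeff h, Pp_coeff h]
  split_ifs with ha
  · rw [al, cf, map_sum]
    refine Finset.sum_congr rfl fun m hm => ?_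
    have hm' := Finset.mem_range.mp hm
    rw [map_mul, ev_C, map_pow, ev_X, mul_pow, one_pow, mul_one, ← rho_mul h hs
      (by omega : a + m ≤ n)]
    ring
  · simp

lemma qq_tp (h : Arr n c) (hs : Stab n c) : tp n (qq n c) = Pp n c 0 1 := by
  ext a
  rw [coeff_tp (qq_good h), qq_coeff h, Pp_coeff h]
  split_ifs with ha
  · rw [al_coeff, if_pos le_rfl, rho_mul h hs (by omega), cf, Finset.sum_eq_single (n - a)]
    · simp
    · intro m hm hm2
      have hm' := Finset.mem_range.mp hm
      rw [zero_pow (by omega : n - a - m ≠ 0)]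
      ring
    · intro hb
      exact absurd (Finset.mem_range.mpr (by omega)) hb
  · simp

lemma eval_pos_ne (h : Arr n c) (hs : Stab n c) (h0 : c 0 n ≠ 0) {ξ : ℝ} (hξ : 0 ≤ ξ) :
    (Pp n c 1 0).eval (ξ : ℂ) ≠ 0 := by
  rcases hξ.lt_or_eq with hpos | hz
  · intro hcon
    have h1 := lower2 h hs (x := Complex.I * ξ) (y := Complex.I) (z := 0) (by simpa using hpos)
      (by simp) le_rfl
    have h2 := Pp_smul h Complex.I (ξ : ℂ) 1 0
    rw [hcon, mul_zero, mul_one, mul_zero] at h2
    rw [Complex.ofReal_zero, h2, norm_zero] at h1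
    have h3 : 0 < (Complex.I * (ξ : ℂ)).im ^ n := by
      have : (Complex.I * (ξ : ℂ)).im = ξ := by simp
      rw [this]
      positivity
    linarith
  · rw [← hz, Complex.ofReal_zero, ← coeff_zero_eq_eval_zero, Pp_coeff h, if_pos (Nat.zero_le n),
      cf, Finset.sum_eq_single 0]
    · simpa using h0
    · intro m _ hm
      rw [zero_pow hm, mul_zero]
    · intro hb
      exact absurd (Finset.mem_range.mpr (by omega)) hb

/-- The representation theorem for arrays. -/
theorem array_main (hn : 0 < n) (h : Arr n c) (hs : Stab n c) (h0 : c 0 n ≠ 0) :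
    ∃ K B : Matrix (Fin n) (Fin n) ℝ, Kᵀ = -K ∧ B.PosDef ∧
      ∀ (x : ℂ) (y : ℝ), y ≠ 0 → (Pp n c y 1).eval x =
        (Matrix.scalar (Fin n) x + (y : ℂ) • B.map (algebraMap ℝ ℂ) -
          Complex.I • K.map (algebraMap ℝ ℂ)).det := by
  obtain ⟨A, K, hA, hK, hAK⟩ := hyperbolic hn (qq_good h)
    (fun τ => by
      rw [qq_map h hs]
      have := Pp_RR h hs 1 τ
      rwa [Complex.ofReal_one] at this)
    (by
      rw [qq_tp h hs]
      have := Pp_RR h hs 0 1
      rwa [Complex.ofReal_one, Complex.ofReal_zero] at this)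
  have hdet : ∀ (x : ℂ) (τ : ℝ), (Matrix.scalar (Fin n) x - mt A K τ).det =
      (Pp n c 1 τ).eval x := by
    intro x τ
    rw [← e2_charpoly, hAK, e2, qq_map h hs]
  refine ⟨K, -A, hK, ?_, ?_⟩
  · have hH : (-A).IsHermitian := by
      ext i j
      rw [Matrix.conjTranspose_apply, Matrix.neg_apply, Matrix.neg_apply]
      have h1 : A j i = A i j := congrFun (congrFun hA i) j
      simp [h1]
    rw [hH.posDef_iff_eigenvalues_pos]
    intro i
    by_contra hcon
    push Not at hcon
    have h1 : (Matrix.scalar (Fin n) (hH.eigenvalues i) - (-A)).det = 0 := by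
      rw [← Matrix.eval_charpoly, hH.charpoly_eq, eval_prod]
      refine Finset.prod_eq_zero (Finset.mem_univ i) ?_
      simp
    have h2 : (Matrix.scalar (Fin n) (-hH.eigenvalues i) - A).det = 0 := by
      have h3 : Matrix.scalar (Fin n) (-hH.eigenvalues i) - A =
          -(Matrix.scalar (Fin n) (hH.eigenvalues i) - (-A)) := by
        rw [map_neg]
        abel
      rw [h3, Matrix.det_neg, h1, mul_zero]
    have h4 := hdet (((-hH.eigenvalues i : ℝ) : ℂ)) 0
    have h5 : (Matrix.scalar (Fin n) (((-hH.eigenvalues i : ℝ) : ℂ)) - mt A K 0) =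
        (Matrix.scalar (Fin n) (-hH.eigenvalues i) - A).map (algebraMap ℝ ℂ) := by
      ext k l
      by_cases hkl : k = l
      · subst hkl; simp [mt]
      · simp [mt, hkl]
    have h6 : ((Matrix.scalar (Fin n) (-hH.eigenvalues i) - A).map (algebraMap ℝ ℂ)).det =
        algebraMap ℝ ℂ (Matrix.scalar (Fin n) (-hH.eigenvalues i) - A).det := by
      rw [RingHom.map_det]; rfl
    rw [h5, h6, h2, map_zero, Complex.ofReal_zero] at h4
    exact eval_pos_ne h hs h0 (by linarith : 0 ≤ -hH.eigenvalues i) h4.symm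
  · intro x y hy
    have hy0 : (y : ℂ) ≠ 0 := by exact_mod_cast hy
    have h1 := hdet (x / y) (1 / y)
    have h2 := Pp_smul h (y : ℂ) (x / y) 1 ((1 / y : ℝ) : ℂ)
    rw [mul_one, mul_div_cancel₀ _ hy0] at h2
    have h3 : (y : ℂ) * ((1 / y : ℝ) : ℂ) = 1 := by
      push_cast
      field_simp
    rw [h3, ← h1] at h2
    rw [h2]
    have h4 : (Matrix.scalar (Fin n) x + (y : ℂ) • (-A).map (algebraMap ℝ ℂ) -
        Complex.I • K.map (algebraMap ℝ ℂ)) =
        (y : ℂ) • (Matrix.scalar (Fin n) (x / y) - mt A K (1 / y)) := by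
      ext k l
      by_cases hkl : k = l
      · subst hkl
        simp [mt]
        field_simp
        ring
      · simp [mt, hkl]
        field_simp
        ring
    rw [h4, Matrix.det_smul, Fintype.card_fin]

end Pool.Agent.H4.SkewDet
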