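import Mathlib

namespace Pool.Agent.H4.SkewDet

open Polynomial Matrix

/-- coefficientwise real part -/
noncomputable def rePart (f : ℂ[X]) : ℝ[X] :=
  ∑ e ∈ f.support, monomial e (f.coeff e).re

/-- coefficientwise imaginary part -/
noncomputable def imPart (f : ℂ[X]) : ℝ[X] :=
  ∑ e ∈ f.support, monomial e (f.coeff e).im

@[simp] lemma coeff_rePart (f : ℂ[X]) (e : ℕ) : (rePart f).coeff e = (f.coeff e).re := by
  rw [rePart, finsetSum_coeff]
  simp only [coeff_monomial]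
  rw [Finset.sum_ite_eq']
  split_ifs with h
  · rfl
  · rw [notMem_support_iff.mp h, Complex.zero_re]

@[simp] lemma coeff_imPart (f : ℂ[X]) (e : ℕ) : (imPart f).coeff e = (f.coeff e).im := by
  rw [imPart, finsetSum_coeff]
  simp only [coeff_monomial]
  rw [Finset.sum_ite_eq']
  split_ifs with h
  · rfl
  · rw [notMem_support_iff.mp h, Complex.zero_im]

lemma re_im_zero {f : ℂ[X]} (h1 : rePart f = 0) (h2 : imPart f = 0) : f = 0 := by
  ext e
  rw [coeff_zero]
  apply Complex.ext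
  · rw [← coeff_rePart, h1]; simp
  · rw [← coeff_imPart, h2]; simp

lemma rePart_natDegree (f : ℂ[X]) (m : ℕ) (h : f.natDegree ≤ m) : (rePart f).natDegree ≤ m := by
  rw [natDegree_le_iff_coeff_eq_zero] at h ⊢
  intro e he
  rw [coeff_rePart, h e he, Complex.zero_re]

lemma imPart_natDegree (f : ℂ[X]) (m : ℕ) (h : f.natDegree ≤ m) : (imPart f).natDegree ≤ m := by
  rw [natDegree_le_iff_coeff_eq_zero] at h ⊢
  intro e he
  rw [coeff_imPart, h e he, Complex.zero_im]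

lemma rePart_sum {ι : Type*} (s : Finset ι) (f : ι → ℂ[X]) :
    rePart (∑ i ∈ s, f i) = ∑ i ∈ s, rePart (f i) := by
  ext e
  simp [finsetSum_coeff]

lemma imPart_sum {ι : Type*} (s : Finset ι) (f : ι → ℂ[X]) :
    imPart (∑ i ∈ s, f i) = ∑ i ∈ s, imPart (f i) := by
  ext e
  simp [finsetSum_coeff]

lemma rePart_map_mul (a : ℝ[X]) (f : ℂ[X]) :
    rePart (a.map (algebraMap ℝ ℂ) * f) = a * rePart f := by
  ext e
  rw [coeff_rePart, coeff_mul, coeff_mul, Complex.re_sum]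
  refine Finset.sum_congr rfl fun x _ => ?_
  simp

lemma imPart_map_mul (a : ℝ[X]) (f : ℂ[X]) :
    imPart (a.map (algebraMap ℝ ℂ) * f) = a * imPart f := by
  ext e
  rw [coeff_imPart, coeff_mul, coeff_mul, Complex.im_sum]
  refine Finset.sum_congr rfl fun x _ => ?_
  simp

lemma rePart_eval_zero (f : ℂ[X]) : (rePart f).eval 0 = (f.eval 0).re := by
  rw [← coeff_zero_eq_eval_zero, ← coeff_zero_eq_eval_zero, coeff_rePart]

lemma imPart_eval_zero (f : ℂ[X]) : (imPart f).eval 0 = (f.eval 0).im := by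
  rw [← coeff_zero_eq_eval_zero, ← coeff_zero_eq_eval_zero, coeff_imPart]

variable {n : ℕ}

lemma re_dvd (H : Matrix (Fin n) (Fin n) ℝ[X]) (d : ℝ[X]) (g : Fin n → ℂ[X]) (i : Fin n)
    (h : d.map (algebraMap ℝ ℂ) ∣ ((H.map (mapRingHom (algebraMap ℝ ℂ))) *ᵥ g) i) :
    d ∣ (H *ᵥ (fun j => rePart (g j))) i := by
  obtain ⟨k, hk⟩ := h
  refine ⟨rePart k, ?_⟩
  rw [← rePart_map_mul, ← hk]
  simp only [Matrix.mulVec, dotProduct, Matrix.map_apply, coe_mapRingHom]
  rw [rePart_sum]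
  exact Finset.sum_congr rfl fun j _ => (rePart_map_mul _ _).symm

lemma im_dvd (H : Matrix (Fin n) (Fin n) ℝ[X]) (d : ℝ[X]) (g : Fin n → ℂ[X]) (i : Fin n)
    (h : d.map (algebraMap ℝ ℂ) ∣ ((H.map (mapRingHom (algebraMap ℝ ℂ))) *ᵥ g) i) :
    d ∣ (H *ᵥ (fun j => imPart (g j))) i := by
  obtain ⟨k, hk⟩ := h
  refine ⟨imPart k, ?_⟩
  rw [← imPart_map_mul, ← hk]
  simp only [Matrix.mulVec, dotProduct, Matrix.map_apply, coe_mapRingHom]
  rw [imPart_sum]
  exact Finset.sum_congr rfl fun j _ => (imPart_map_mul _ _).symm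

end Pool.Agent.H4.SkewDet
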