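import Pool.Agent.H4.SkewDet.Factor
import Pool.Agent.H4.SkewDet.Constraint
import Pool.Agent.H4.SkewDet.Parts

namespace Pool.Agent.H4.SkewDet

open Polynomial Matrix

variable {n : ℕ}

/-- the pairing `g'(-s)ᵀ M(s) g(s)` -/
noncomputable def pair (M : Matrix (Fin n) (Fin n) ℝ[X]) (g' g : Fin n → ℝ[X]) : ℝ[X] :=
  (fun i => (g' i).comp (-X)) ⬝ᵥ (M *ᵥ g)

lemma pair_eq (M : Matrix (Fin n) (Fin n) ℝ[X]) (g' g : Fin n → ℝ[X]) :
    pair M g' g = ∑ i, ∑ j, (g' i).comp (-X) * (M i j * g j) := by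
  simp only [pair, dotProduct, Matrix.mulVec, Finset.mul_sum]

lemma comp_sum' {ι : Type*} (s : Finset ι) (f : ι → ℝ[X]) (q : ℝ[X]) :
    (∑ i ∈ s, f i).comp q = ∑ i ∈ s, (f i).comp q := by
  exact map_sum (compRingHom q) f s

lemma pair_comp_neg {M : Matrix (Fin n) (Fin n) ℝ[X]} (hs : Mᵀ = M)
    (he : ∀ i j, (M i j).comp (-X) = M i j) (g' g : Fin n → ℝ[X]) :
    (pair M g' g).comp (-X) = pair M g g' := by
  rw [pair_eq, pair_eq, comp_sum']
  simp only [comp_sum', mul_comp, comp_neg_comp_neg, he]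
  rw [Finset.sum_comm]
  refine Finset.sum_congr rfl fun j _ => Finset.sum_congr rfl fun i _ => ?_
  have : M i j = M j i := by
    conv_lhs => rw [← hs]
    rfl
  rw [this]
  ring

lemma dvd_pair {M : Matrix (Fin n) (Fin n) ℝ[X]} {d : ℝ[X]} {g : Fin n → ℝ[X]}
    (h : ∀ i, d ∣ (M *ᵥ g) i) (g' : Fin n → ℝ[X]) : d ∣ pair M g' g := by
  have : pair M g' g = ∑ i, (g' i).comp (-X) * (M *ᵥ g) i := rfl
  rw [this]
  exact Finset.dvd_sum fun i _ => (h i).mul_left _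

lemma dvd_comp_neg {a b : ℝ[X]} (h : a ∣ b) : a.comp (-X) ∣ b.comp (-X) := by
  obtain ⟨k, rfl⟩ := h
  exact ⟨k.comp (-X), by rw [mul_comp]⟩

lemma mul_dvd_pair {M : Matrix (Fin n) (Fin n) ℝ[X]} {d : ℝ[X]} (hs : Mᵀ = M)
    (he : ∀ i j, (M i j).comp (-X) = M i j) (hd : IsCoprime d (d.comp (-X)))
    {g g' : Fin n → ℝ[X]}
    (h : ∀ i, d ∣ (M *ᵥ g) i) (h' : ∀ i, d ∣ (M *ᵥ g') i) :
    d * d.comp (-X) ∣ pair M g' g := by
  refine hd.mul_dvd (dvd_pair h g') ?_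
  rw [← pair_comp_neg hs he]
  exact dvd_comp_neg (dvd_pair h' g)

lemma pair_natDegree_le {M : Matrix (Fin n) (Fin n) ℝ[X]} {e D : ℕ} (hD : n ≤ D + 1)
    (hM : ∀ i j, (M i j).natDegree ≤ (i : ℕ) + j + e) {g g' : Fin n → ℝ[X]}
    (h : ∀ j, (g j).natDegree ≤ D - j) (h' : ∀ j, (g' j).natDegree ≤ D - j) :
    (pair M g' g).natDegree ≤ 2 * D + e := by
  rw [pair_eq]
  refine natDegree_sum_le_of_forall_le _ _ fun i _ => ?_
  refine natDegree_sum_le_of_forall_le _ _ fun j _ => ?_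
  refine natDegree_mul_le.trans ?_
  have h1 : (M i j * g j).natDegree ≤ (i : ℕ) + j + e + (D - j) :=
    natDegree_mul_le.trans (add_le_add (hM i j) (h j))
  rw [natDegree_comp_neg]
  have h2 := h' i
  have h3 := i.2
  have h4 := j.2
  omega

/-- positivity -/
lemma pair_self_eq_zero {M : Matrix (Fin n) (Fin n) ℝ[X]}
    (hpos : ∀ τ : ℝ, ∃ V : Matrix (Fin n) (Fin n) ℝ, IsUnit V.det ∧
      M.map (ev τ) = (Vᵀ * V).map (algebraMap ℝ ℂ)) {g : Fin n → ℝ[X]}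
    (h : pair M g g = 0) : g = 0 := by
  funext k
  refine ev_ext fun τ => ?_
  obtain ⟨V, hV, hMV⟩ := hpos τ
  set x : Fin n → ℂ := fun i => ev τ (g i) with hx
  set W : Matrix (Fin n) (Fin n) ℂ := V.map (algebraMap ℝ ℂ) with hW
  have h1 : ev τ (pair M g g) = star x ⬝ᵥ ((M.map (ev τ)) *ᵥ x) := by
    simp only [pair, dotProduct, Matrix.mulVec, map_sum, map_mul, Matrix.map_apply, hx,
      Pi.star_apply, ev_comp_neg]
    rfl
  have hWh : Wᴴ = Wᵀ := by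
    ext i j
    simp [hW]
  have h2 : M.map (ev τ) = Wᴴ * W := by
    rw [hMV, hWh, Matrix.map_mul]
    rfl
  rw [h, map_zero, h2] at h1
  have h3 : star (W *ᵥ x) ⬝ᵥ (W *ᵥ x) = 0 := by
    rw [star_mulVec, ← dotProduct_mulVec, Matrix.mulVec_mulVec]
    exact h1.symm
  have h4 : W *ᵥ x = 0 := by
    open ComplexOrder in
    exact dotProduct_star_self_eq_zero.mp h3
  have h5 : W.det ≠ 0 := by
    have : W.det = algebraMap ℝ ℂ V.det := by
      rw [hW, RingHom.map_det]; rfl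
    rw [this]
    simpa using hV.ne_zero
  have h6 : x = 0 := by
    by_contra hx0
    exact h5 (Matrix.exists_mulVec_eq_zero_iff.mp ⟨x, hx0, h4⟩)
  have := congrFun h6 k
  simpa [hx] using this

/-- `Λ`: the lattice of admissible vectors. -/
structure InL (H : Matrix (Fin n) (Fin n) ℝ[X]) (d : ℝ[X]) (D : ℕ) (g : Fin n → ℝ[X]) :
    Prop where
  deg : ∀ j, (g j).natDegree ≤ D - j
  dvd : ∀ i, d ∣ (H *ᵥ g) i

variable {H : Matrix (Fin n) (Fin n) ℝ[X]} {d : ℝ[X]} {D : ℕ}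

lemma exists_of_dvd {d P : ℝ[X]} {D e : ℕ} (hd : d.natDegree = D) (hd0 : d ≠ 0)
    (h : d * d.comp (-X) ∣ P) (hP : P.natDegree ≤ 2 * D + e) :
    ∃ k : ℝ[X], P = d * d.comp (-X) * k ∧ k.natDegree ≤ e := by
  obtain ⟨k, hk⟩ := h
  refine ⟨k, hk, ?_⟩
  by_cases hk0 : k = 0
  · rw [hk0]; simp
  have h1 : d.comp (-X) ≠ 0 := by
    intro h0
    apply hd0
    rw [← comp_neg_comp_neg d, h0, zero_comp]
  have h2 : P.natDegree = d.natDegree + (d.comp (-X)).natDegree + k.natDegree := by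
    rw [hk, natDegree_mul (mul_ne_zero hd0 h1) hk0, natDegree_mul hd0 h1]
  rw [natDegree_comp_neg, hd] at h2
  omega

lemma eval_zero_comp_neg (f : ℝ[X]) : (f.comp (-X)).eval 0 = f.eval 0 := by
  simp [eval_comp]

lemma pair_eval_zero (M : Matrix (Fin n) (Fin n) ℝ[X]) (g' g : Fin n → ℝ[X]) :
    (pair M g' g).eval 0 =
      (fun i => (g' i).eval 0) ⬝ᵥ ((M.map (eval 0)) *ᵥ (fun i => (g i).eval 0)) := by
  simp only [pair, dotProduct, Matrix.mulVec, eval_finsetSum, eval_mul, eval_zero_comp_neg,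
    Matrix.map_apply]

lemma InL.pair_const (hn : n ≤ D + 1) (hs : Hᵀ = H) (he : ∀ i j, (H i j).comp (-X) = H i j)
    (hdeg : ∀ i j, (H i j).natDegree ≤ (i : ℕ) + j) (hdc : IsCoprime d (d.comp (-X)))
    (hdd : d.natDegree = D) (hd0 : d ≠ 0)
    {g g' : Fin n → ℝ[X]} (hg : InL H d D g) (hg' : InL H d D g') :
    ∃ κ : ℝ, pair H g' g = d * d.comp (-X) * C κ := by
  have h1 := mul_dvd_pair hs he hdc hg.dvd hg'.dvd
  have h2 : (pair H g' g).natDegree ≤ 2 * D + 0 :=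
    pair_natDegree_le hn (fun i j => by simpa using hdeg i j) hg.deg hg'.deg
  obtain ⟨k, hk, hkd⟩ := exists_of_dvd hdd hd0 h1 h2
  refine ⟨k.coeff 0, ?_⟩
  rw [hk]
  congr 1
  exact eq_C_of_natDegree_le_zero hkd

lemma InL.eq_zero (hn : n ≤ D + 1) (hs : Hᵀ = H) (he : ∀ i j, (H i j).comp (-X) = H i j)
    (hdeg : ∀ i j, (H i j).natDegree ≤ (i : ℕ) + j) (hdc : IsCoprime d (d.comp (-X)))
    (hdd : d.natDegree = D) (hd0 : d ≠ 0) (hde : d.eval 0 ≠ 0)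
    (hpos : ∀ τ : ℝ, ∃ V : Matrix (Fin n) (Fin n) ℝ, IsUnit V.det ∧
      H.map (ev τ) = (Vᵀ * V).map (algebraMap ℝ ℂ))
    {g : Fin n → ℝ[X]} (hg : InL H d D g) (h0 : ∀ i, (g i).eval 0 = 0) : g = 0 := by
  obtain ⟨κ, hκ⟩ := hg.pair_const hn hs he hdeg hdc hdd hd0 hg
  have h1 := pair_eval_zero H g g
  have h2 : (fun i => (g i).eval 0) = (0 : Fin n → ℝ) := funext h0
  rw [h2, zero_dotProduct, hκ] at h1
  simp only [eval_mul, eval_zero_comp_neg, eval_C] at h1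
  have h3 : κ = 0 := by
    rcases mul_eq_zero.mp h1 with h | h
    · exact absurd h (mul_ne_zero hde hde)
    · exact h
  rw [h3, C_0, mul_zero] at hκ
  exact pair_self_eq_zero hpos hκ

end Pool.Agent.H4.SkewDet
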