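import Pool.Agent.H4.SkewDet.Core

namespace Pool.Agent.H4.SkewDet

open Polynomial Matrix Module

variable {n : ℕ}

/-- Strictly hyperbolic case. -/
theorem strict (hn : 0 < n) (a : ℕ → ℝ[X])
    (hdeg : ∀ k e, n < k + e → (a k).coeff e = 0)
    (heven : ∀ k, (a k).comp (-X) = a k)
    (hroots : ∀ τ : ℝ, ∃ r : Fin n → ℝ, Function.Injective r ∧
      ∀ k, ∑ i : Fin n, ev τ (a i) * (r k : ℂ) ^ (i : ℕ) + (r k : ℂ) ^ n = 0)
    (hinf : ∃ r : Fin n → ℂ, Function.Injective r ∧
      ∀ k, ∑ i : Fin n, (((a i).coeff (n - i) : ℝ) : ℂ) * r k ^ (i : ℕ) + r k ^ n = 0) :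
    ∃ A K : Matrix (Fin n) (Fin n) ℝ, Aᵀ = A ∧ Kᵀ = -K ∧
      (A.map C + (X : ℝ[X]) • K.map C).charpoly =
        X ^ n + ∑ i : Fin n, C (a i) * X ^ (i : ℕ) := by
  have hinj : ∀ r : Fin n → ℝ, Function.Injective r →
      Function.Injective (fun k => ((r k : ℝ) : ℂ)) := by
    intro r hr x y hxy
    exact hr (Complex.ofReal_injective hxy)
  have hvand : ∀ r : Fin n → ℝ, vandermonde (fun k => ((r k : ℝ) : ℂ)) =
      (vandermonde r).map (algebraMap ℝ ℂ) := by
    intro r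
    ext i j
    simp [vandermonde_apply]
  have hcompH : ∀ i j, ((hmt n a) i j).comp (-X) = hmt n a i j := by
    intro i j
    have h1 := hmt_map (n := n) (compRingHom (-X : ℝ[X])) a
    have h2 : (fun k => (compRingHom (-X : ℝ[X])) (a k)) = a := by
      funext k
      exact heven k
    rw [h2] at h1
    exact congrFun (congrFun h1 i) j
  have hcompC : ∀ i j, ((cmp n a) i j).comp (-X) = cmp n a i j := by
    intro i j
    have h1 := cmp_map (n := n) (compRingHom (-X : ℝ[X])) a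
    have h2 : (fun k => (compRingHom (-X : ℝ[X])) (a k)) = a := by
      funext k
      exact heven k
    rw [h2] at h1
    exact congrFun (congrFun h1 i) j
  have hHC : (hmt n a * cmp n a)ᵀ = hmt n a * cmp n a := by
    apply ev_ext_matrix
    intro τ
    obtain ⟨r, hr, hr0⟩ := hroots τ
    have h1 := hmt_mul_cmp_symm (fun k => ev τ (a k)) _ (hinj r hr) hr0
    have h2 : (hmt n a * cmp n a).map (ev τ) =
        hmt n (fun k => ev τ (a k)) * cmp n (fun k => ev τ (a k)) := by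
      rw [Matrix.map_mul, hmt_map, cmp_map]
    rw [Matrix.transpose_map, h2, h1]
  have hpos : ∀ τ : ℝ, ∃ V : Matrix (Fin n) (Fin n) ℝ, IsUnit V.det ∧
      (hmt n a).map (ev τ) = (Vᵀ * V).map (algebraMap ℝ ℂ) := by
    intro τ
    obtain ⟨r, hr, hr0⟩ := hroots τ
    refine ⟨vandermonde r, vand_isUnit hr, ?_⟩
    rw [hmt_map, hmt_eq _ _ (hinj r hr) hr0, hvand, Matrix.map_mul, Matrix.transpose_map]
  have hdet : (hmt n a).det.natDegree = ∑ j : Fin n, 2 * (j : ℕ) := by
    refine le_antisymm (hmt_det_natDegree_le a hdeg) ?_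
    apply le_natDegree_of_ne_zero
    rw [hmt_det_coeff_top a hdeg]
    obtain ⟨r, hr, hr0⟩ := hinf
    intro h
    have h1 : ((hmt n fun k => (a k).coeff (n - k)).map (algebraMap ℝ ℂ)).det = 0 := by
      have h2 : ((hmt n fun k => (a k).coeff (n - k)).map (algebraMap ℝ ℂ)).det =
        algebraMap ℝ ℂ (hmt n fun k => (a k).coeff (n - k)).det := by
        rw [RingHom.map_det]; rfl
      rw [h2, h, map_zero]
    rw [hmt_map, hmt_eq _ r hr hr0, Matrix.det_mul, Matrix.det_transpose] at h1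
    exact mul_ne_zero (vand_isUnit hr).ne_zero (vand_isUnit hr).ne_zero h1
  obtain ⟨A, K, hA, hK, hAK⟩ := structured hn (hmt_symm a) hcompH hcompC (hmt_natDegree_le a hdeg)
    (cmp_wt a hdeg) hHC hpos hdet
  refine ⟨A, K, hA, hK, ?_⟩
  rw [hAK]
  -- the characteristic polynomial of the companion matrix
  ext1 m
  refine ev_ext fun τ => ?_
  obtain ⟨r, hr, hr0⟩ := hroots τ
  have h1 := charpoly_cmp (fun k => ev τ (a k)) _ (hinj r hr) hr0
  have h2 := monic_eq_prod (fun k => ev τ (a k)) _ (hinj r hr) hr0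
  rw [← h2, ← cmp_map, charpoly_map] at h1
  have h3 := congrArg (fun p => coeff p m) h1
  simp only [coeff_map] at h3
  rw [h3]
  have h4 : (X ^ n + ∑ i : Fin n, C (ev τ (a i)) * X ^ (i : ℕ) : ℂ[X]) =
      (X ^ n + ∑ i : Fin n, C (a i) * X ^ (i : ℕ) : ℝ[X][X]).map (ev τ) := by
    simp [Polynomial.map_sum]
  rw [h4, coeff_map]

end Pool.Agent.H4.SkewDet
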