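import Pool.Agent.H4.SkewDet.Pairing

namespace Pool.Agent.H4.SkewDet

open Polynomial Matrix Module

variable {n : ℕ}

/-- Every value at `0` is attained by a (unique) element of the lattice. -/
lemma InL.exists_eval_zero {H : Matrix (Fin n) (Fin n) ℝ[X]} {d : ℝ[X]} {D : ℕ}
    (hn : 0 < n) (hnD : n ≤ D + 1) (hD : D = ∑ j : Fin n, (j : ℕ))
    (hs : Hᵀ = H) (he : ∀ i j, (H i j).comp (-X) = H i j)
    (hdeg : ∀ i j, (H i j).natDegree ≤ (i : ℕ) + j) (hdc : IsCoprime d (d.comp (-X)))
    (hdd : d.natDegree = D) (hd0 : d ≠ 0) (hde : d.eval 0 ≠ 0) (hdvd : d ∣ H.det)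
    (hpos : ∀ τ : ℝ, ∃ V : Matrix (Fin n) (Fin n) ℝ, IsUnit V.det ∧
      H.map (ev τ) = (Vᵀ * V).map (algebraMap ℝ ℂ)) (v : Fin n → ℝ) :
    ∃ g, InL H d D g ∧ ∀ i, (g i).eval 0 = v i := by
  classical
  set φ := algebraMap ℝ ℂ with hφ
  set HC : Matrix (Fin n) (Fin n) ℂ[X] := H.map (mapRingHom φ) with hHC
  set dC : ℂ[X] := d.map φ with hdC
  have hdCdeg : dC.natDegree = D := by rw [hdC, natDegree_map, hdd]
  have hdC0 : dC ≠ 0 := (Polynomial.map_ne_zero_iff φ.injective).mpr hd0
  have hdCdvd : dC ∣ HC.det := by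
    have : HC.det = (mapRingHom φ) H.det := by rw [RingHom.map_det]; rfl
    rw [this, coe_mapRingHom]
    exact Polynomial.map_dvd φ hdvd
  obtain ⟨S, hScard, hS⟩ := exists_constraints D HC dC hdCdeg hdC0 hdCdvd
  let W := (j : Fin n) → Polynomial.degreeLT ℂ (D - j + 1)
  let ι : W →ₗ[ℂ] (Fin n → ℂ[X]) :=
    LinearMap.pi fun j => (Polynomial.degreeLT ℂ (D - j + 1)).subtype.comp (LinearMap.proj j)
  let Θ : W →ₗ[ℂ] (S → ℂ) := LinearMap.pi fun f => (f : Module.Dual ℂ (Fin n → ℂ[X])).comp ι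
  have : ∀ m, FiniteDimensional ℂ (Polynomial.degreeLT ℂ m) := fun m =>
    LinearEquiv.finiteDimensional (Polynomial.degreeLTEquiv ℂ m).symm
  have hfinW : FiniteDimensional ℂ W := inferInstanceAs
    (FiniteDimensional ℂ ((j : Fin n) → Polynomial.degreeLT ℂ (D - j + 1)))
  have hrW : finrank ℂ W = ∑ j : Fin n, (D - j + 1) := by
    have h1 : finrank ℂ W = ∑ j : Fin n, finrank ℂ (Polynomial.degreeLT ℂ (D - j + 1)) :=
      Module.finrank_pi_fintype ℂ
    rw [h1]
    refine Finset.sum_congr rfl fun j _ => ?_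
    rw [LinearEquiv.finrank_eq (Polynomial.degreeLTEquiv ℂ _)]
    simp
  have hrW' : finrank ℂ W = n + (n - 1) * D := by
    rw [hrW]
    have h1 : ∑ j : Fin n, (D - j + 1) + ∑ j : Fin n, (j : ℕ) = n * (D + 1) := by
      rw [← Finset.sum_add_distrib]
      have : ∀ j : Fin n, D - (j : ℕ) + 1 + j = D + 1 := by
        intro j
        have := j.2
        omega
      simp [this]
    rw [← hD] at h1
    obtain ⟨m, rfl⟩ : ∃ m, n = m + 1 := ⟨n - 1, by omega⟩
    simp only [add_tsub_cancel_right]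
    have h2 : (m + 1) * (D + 1) = (m + 1 + m * D) + D := by ring
    omega
  have hker : n ≤ finrank ℂ (LinearMap.ker Θ) := by
    have h1 := LinearMap.finrank_range_add_finrank_ker Θ
    have h2 : finrank ℂ (LinearMap.range Θ) ≤ (n - 1) * D := by
      refine (Submodule.finrank_le _).trans ?_
      rw [Module.finrank_fintype_fun_eq_card, Fintype.card_coe]
      exact hScard
    rw [hrW'] at h1
    omega
  let E : LinearMap.ker Θ →ₗ[ℂ] (Fin n → ℂ) :=
    (LinearMap.pi fun j => (aeval (0 : ℂ)).toLinearMap.comp (LinearMap.proj j)).comp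
      (ι.comp (LinearMap.ker Θ).subtype)
  have hEapp : ∀ (w : LinearMap.ker Θ) (j : Fin n), E w j = (ι w j).eval 0 := by
    intro w j
    simp only [E, LinearMap.comp_apply, LinearMap.pi_apply, LinearMap.proj_apply,
      AlgHom.toLinearMap_apply, Submodule.subtype_apply]
    rw [aeval_def, eval₂_eq_eval_map]
    simp
  -- properties of elements in the kernel
  have hkerprop : ∀ w : LinearMap.ker Θ, ∀ i, dC ∣ (HC *ᵥ (ι w)) i := by
    intro w i
    refine hS (ι w) ?_ i
    intro f hf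
    have h1 : Θ (w : W) = 0 := w.2
    have h2 := congrFun h1 ⟨f, hf⟩
    simpa [Θ] using h2
  have hdegprop : ∀ (w : W) (j : Fin n), (ι w j).natDegree ≤ D - j := by
    intro w j
    have h1 : ι w j ∈ Polynomial.degreeLT ℂ (D - j + 1) := (w j).2
    rw [Polynomial.mem_degreeLT] at h1
    have h2 : (ι w j).degree ≤ ((D - j : ℕ) : WithBot ℕ) := by
      rw [Polynomial.degree_le_iff_coeff_zero]
      intro m hm
      apply Polynomial.coeff_eq_zero_of_degree_lt
      refine h1.trans_le ?_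
      have : (D - j : ℕ) < m := by exact_mod_cast hm
      exact_mod_cast this
    exact natDegree_le_of_degree_le h2
  have hre : ∀ w : LinearMap.ker Θ, InL H d D (fun j => rePart (ι w j)) := fun w =>
    ⟨fun j => rePart_natDegree _ _ (hdegprop _ j), fun i => re_dvd H d _ i (hkerprop w i)⟩
  have him : ∀ w : LinearMap.ker Θ, InL H d D (fun j => imPart (ι w j)) := fun w =>
    ⟨fun j => imPart_natDegree _ _ (hdegprop _ j), fun i => im_dvd H d _ i (hkerprop w i)⟩
  have hEinj : Function.Injective E := by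
    rw [injective_iff_map_eq_zero]
    intro w hw
    have h0 : ∀ j, (ι w j).eval 0 = 0 := by
      intro j
      rw [← hEapp, hw]
      rfl
    have h1 := (hre w).eq_zero hnD hs he hdeg hdc hdd hd0 hde hpos (fun i => by
      rw [rePart_eval_zero, h0, Complex.zero_re])
    have h2 := (him w).eq_zero hnD hs he hdeg hdc hdd hd0 hde hpos (fun i => by
      rw [imPart_eval_zero, h0, Complex.zero_im])
    have h3 : ∀ j, ι w j = 0 := fun j => re_im_zero (congrFun h1 j) (congrFun h2 j)
    apply Subtype.ext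
    funext j
    exact Subtype.ext (h3 j)
  have hEsurj : Function.Surjective E := by
    have h1 : finrank ℂ (LinearMap.ker Θ) ≤ finrank ℂ (Fin n → ℂ) :=
      LinearMap.finrank_le_finrank_of_injective hEinj
    have h2 : finrank ℂ (Fin n → ℂ) = n := by simp
    have h3 : finrank ℂ (LinearMap.ker Θ) = finrank ℂ (Fin n → ℂ) := by omega
    have h4 := LinearMap.finrank_range_of_inj hEinj
    have h5 : LinearMap.range E = ⊤ := Submodule.eq_top_of_finrank_eq (h4.trans h3)
    exact LinearMap.range_eq_top.mp h5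
  obtain ⟨w, hw⟩ := hEsurj (fun i => ((v i : ℝ) : ℂ))
  refine ⟨fun j => rePart (ι w j), hre w, fun i => ?_⟩
  rw [rePart_eval_zero, ← hEapp, hw, Complex.ofReal_re]

end Pool.Agent.H4.SkewDet
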