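import Pool.Agent.H4.SkewDet.Companion

namespace Pool.Agent.H4.SkewDet

open Polynomial Matrix

variable {R : Type*} [CommRing R] {n : ℕ}

/-- Graded degree bound: the entry `(i, j)` has degree at most `m + j - i` (and is zero if this
is negative). -/
def Wt (m : ℕ) (M : Matrix (Fin n) (Fin n) R[X]) : Prop :=
  ∀ i j : Fin n, ∀ e : ℕ, m + (j : ℕ) < e + i → (M i j).coeff e = 0

/-- Matrix of the top coefficients for the graded degree. -/
def top (m : ℕ) (M : Matrix (Fin n) (Fin n) R[X]) : Matrix (Fin n) (Fin n) R :=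
  fun i j => if (i : ℕ) ≤ m + j then (M i j).coeff (m + j - i) else 0

lemma Wt.natDegree_le {m : ℕ} {M : Matrix (Fin n) (Fin n) R[X]} (h : Wt m M) (i j : Fin n) :
    (M i j).natDegree ≤ m + j - i := by
  rw [natDegree_le_iff_coeff_eq_zero]
  intro e he
  exact h i j e (by omega)

lemma Wt.eq_zero {m : ℕ} {M : Matrix (Fin n) (Fin n) R[X]} (h : Wt m M) {i j : Fin n}
    (hij : m + (j : ℕ) < i) : M i j = 0 := by
  ext e
  rw [h i j e (by omega), coeff_zero]

lemma Wt.mul {m m' : ℕ} {M N : Matrix (Fin n) (Fin n) R[X]} (h : Wt m M) (h' : Wt m' N) :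
    Wt (m + m') (M * N) := by
  intro i j e he
  rw [Matrix.mul_apply, finsetSum_coeff]
  refine Finset.sum_eq_zero fun k _ => ?_
  rw [coeff_mul]
  refine Finset.sum_eq_zero fun x hx => ?_
  rw [Finset.HasAntidiagonal.mem_antidiagonal] at hx
  by_cases h1 : m + (k : ℕ) < x.1 + i
  · rw [h i k x.1 h1, zero_mul]
  · rw [h' k j x.2 (by omega), mul_zero]

lemma Wt.one : Wt 0 (1 : Matrix (Fin n) (Fin n) R[X]) := by
  intro i j e he
  by_cases hij : i = j
  · subst hij
    rw [Matrix.one_apply_eq, coeff_one, if_neg (by omega)]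
  · rw [Matrix.one_apply_ne hij, coeff_zero]

lemma Wt.pow {m : ℕ} {M : Matrix (Fin n) (Fin n) R[X]} (h : Wt m M) (k : ℕ) :
    Wt (k * m) (M ^ k) := by
  induction k with
  | zero => simpa using Wt.one
  | succ k ih =>
    rw [pow_succ, add_mul, one_mul]
    exact ih.mul h

lemma top_mul {m m' : ℕ} {M N : Matrix (Fin n) (Fin n) R[X]} (h : Wt m M) (h' : Wt m' N) :
    top (m + m') (M * N) = top m M * top m' N := by
  ext i j
  rw [Matrix.mul_apply]
  unfold top
  by_cases hij : (i : ℕ) ≤ m + m' + j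
  · rw [if_pos hij, Matrix.mul_apply, finsetSum_coeff]
    refine Finset.sum_congr rfl fun k _ => ?_
    by_cases h1 : (i : ℕ) ≤ m + k
    · by_cases h2 : (k : ℕ) ≤ m' + j
      · rw [if_pos h1, if_pos h2, ← coeff_mul_add_eq_of_natDegree_le (h.natDegree_le i k)
          (h'.natDegree_le k j)]
        congr 1
        omega
      · rw [h'.eq_zero (by omega : m' + (j : ℕ) < k)]
        simp
    · rw [h.eq_zero (by omega : m + (k : ℕ) < i)]
      simp
  · rw [if_neg hij]
    symm
    refine Finset.sum_eq_zero fun k _ => ?_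
    by_cases h1 : (i : ℕ) ≤ m + k
    · rw [if_neg (by omega : ¬ (k : ℕ) ≤ m' + j), mul_zero]
    · rw [if_neg h1, zero_mul]

lemma top_one : top 0 (1 : Matrix (Fin n) (Fin n) R[X]) = 1 := by
  ext i j
  unfold top
  by_cases hij : i = j
  · subst hij
    simp
  · rw [Matrix.one_apply_ne hij, Matrix.one_apply_ne hij]
    simp

lemma top_pow {m : ℕ} {M : Matrix (Fin n) (Fin n) R[X]} (h : Wt m M) (k : ℕ) :
    top (k * m) (M ^ k) = top m M ^ k := by
  induction k with
  | zero => simpa using top_one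
  | succ k ih =>
    rw [pow_succ, add_mul, one_mul, top_mul (h.pow k) h, ih, pow_succ]

lemma Wt.trace_natDegree_le {m : ℕ} {M : Matrix (Fin n) (Fin n) R[X]} (h : Wt m M) :
    (Matrix.trace M).natDegree ≤ m := by
  rw [natDegree_le_iff_coeff_eq_zero]
  intro e he
  simp only [Matrix.trace, Matrix.diag, finsetSum_coeff]
  exact Finset.sum_eq_zero fun i _ => h i i e (by omega)

lemma trace_coeff_top {m : ℕ} (M : Matrix (Fin n) (Fin n) R[X]) :
    (Matrix.trace M).coeff m = Matrix.trace (top m M) := by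
  simp only [Matrix.trace, Matrix.diag, finsetSum_coeff, top]
  refine Finset.sum_congr rfl fun i _ => ?_
  rw [if_pos (by omega)]
  congr 1
  omega

/-- coefficient of a product with individual degree bounds -/
lemma coeff_prod_of_le {ι : Type*} (s : Finset ι) (f : ι → R[X]) (d : ι → ℕ)
    (h : ∀ i ∈ s, (f i).natDegree ≤ d i) :
    (∏ i ∈ s, f i).coeff (∑ i ∈ s, d i) = ∏ i ∈ s, (f i).coeff (d i) := by
  classical
  induction s using Finset.induction_on with
  | empty => simp
  | insert a s ha ih =>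
    rw [Finset.prod_insert ha, Finset.sum_insert ha, Finset.prod_insert ha,
      coeff_mul_add_eq_of_natDegree_le (h a (Finset.mem_insert_self a s)),
      ih fun i hi => h i (Finset.mem_insert_of_mem hi)]
    refine (natDegree_prod_le s f).trans (Finset.sum_le_sum fun i hi => ?_)
    exact h i (Finset.mem_insert_of_mem hi)

lemma det_coeff_top (M : Matrix (Fin n) (Fin n) R[X])
    (h : ∀ i j, (M i j).natDegree ≤ (i : ℕ) + j) :
    M.det.coeff (∑ i : Fin n, 2 * (i : ℕ)) =
      (Matrix.of fun i j : Fin n => (M i j).coeff ((i : ℕ) + j)).det := by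
  rw [Matrix.det_apply, Matrix.det_apply, finsetSum_coeff]
  refine Finset.sum_congr rfl fun σ _ => ?_
  have h1 : (∏ i, M (σ i) i).coeff (∑ i : Fin n, 2 * (i : ℕ)) =
      ∏ i, (M (σ i) i).coeff (((σ i : Fin n) : ℕ) + i) := by
    have h2 : (∑ i : Fin n, 2 * (i : ℕ)) = ∑ i : Fin n, (((σ i : Fin n) : ℕ) + i) := by
      rw [Finset.sum_add_distrib, Equiv.sum_comp σ (fun i : Fin n => (i : ℕ)),
        ← Finset.sum_add_distrib]
      exact Finset.sum_congr rfl fun i _ => by ring
    rw [h2]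
    exact coeff_prod_of_le _ _ _ fun i _ => h _ _
  rw [coeff_smul, h1]
  simp

lemma det_natDegree_le (M : Matrix (Fin n) (Fin n) R[X])
    (h : ∀ i j, (M i j).natDegree ≤ (i : ℕ) + j) :
    M.det.natDegree ≤ ∑ i : Fin n, 2 * (i : ℕ) := by
  rw [Matrix.det_apply]
  refine natDegree_sum_le_of_forall_le _ _ fun σ _ => ?_
  refine (natDegree_smul_le _ _).trans ?_
  refine (natDegree_prod_le _ _).trans ?_
  have h2 : (∑ i : Fin n, 2 * (i : ℕ)) = ∑ i : Fin n, (((σ i : Fin n) : ℕ) + i) := by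
    rw [Finset.sum_add_distrib, Equiv.sum_comp σ (fun i : Fin n => (i : ℕ)),
      ← Finset.sum_add_distrib]
    exact Finset.sum_congr rfl fun i _ => by ring
  rw [h2]
  exact Finset.sum_le_sum fun i _ => h _ _

/-- degree condition on the coefficients -/
lemma cmp_wt (a : ℕ → R[X]) (h : ∀ k e, n < k + e → (a k).coeff e = 0) :
    Wt 1 (cmp n a) := by
  intro i j e he
  unfold cmp
  split_ifs with h1 h2
  · rw [coeff_neg, h i e (by omega), neg_zero]
  · rw [coeff_one, if_neg (by omega)]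
  · simp

lemma top_cmp (a : ℕ → R[X]) (h : ∀ k e, n < k + e → (a k).coeff e = 0) :
    top 1 (cmp n a) = cmp n (fun k => (a k).coeff (n - k)) := by
  ext i j
  unfold top cmp
  have hi := i.2
  have hj := j.2
  by_cases h1 : (j : ℕ) + 1 = n
  · simp only [h1, if_true]
    rw [if_pos (by omega), coeff_neg]
    congr 2
    omega
  · simp only [h1, if_false]
    by_cases h2 : (i : ℕ) = j + 1
    · rw [if_pos (by omega : (i : ℕ) ≤ 1 + j), if_pos h2, if_pos h2, coeff_one,
        if_pos (by omega)]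
    · rw [if_neg h2, if_neg h2]
      simp

lemma hmt_natDegree_le (a : ℕ → R[X]) (h : ∀ k e, n < k + e → (a k).coeff e = 0) (i j : Fin n) :
    (hmt n a i j).natDegree ≤ (i : ℕ) + j := by
  have := ((cmp_wt a h).pow ((i : ℕ) + j)).trace_natDegree_le
  rwa [mul_one] at this

lemma hmt_coeff_top (a : ℕ → R[X]) (h : ∀ k e, n < k + e → (a k).coeff e = 0) (i j : Fin n) :
    (hmt n a i j).coeff ((i : ℕ) + j) = hmt n (fun k => (a k).coeff (n - k)) i j := by
  have h1 := trace_coeff_top (m := (i : ℕ) + j) ((cmp n a) ^ ((i : ℕ) + j))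
  have h2 := top_pow (cmp_wt a h) ((i : ℕ) + j)
  rw [mul_one, top_cmp a h] at h2
  unfold hmt
  rw [h1, h2]

lemma hmt_det_coeff_top (a : ℕ → R[X]) (h : ∀ k e, n < k + e → (a k).coeff e = 0) :
    (hmt n a).det.coeff (∑ i : Fin n, 2 * (i : ℕ)) =
      (hmt n (fun k => (a k).coeff (n - k))).det := by
  rw [det_coeff_top _ (hmt_natDegree_le a h)]
  congr 1
  ext i j
  exact hmt_coeff_top a h i j

lemma hmt_det_natDegree_le (a : ℕ → R[X]) (h : ∀ k e, n < k + e → (a k).coeff e = 0) :
    (hmt n a).det.natDegree ≤ ∑ i : Fin n, 2 * (i : ℕ) :=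
  det_natDegree_le _ (hmt_natDegree_le a h)

end Pool.Agent.H4.SkewDet
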